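import Mathlib

set_option autoImplicit false

namespace Pool.Agent.Lib.MP_068a9c_al.Gen

open Finsupp

universe u

section
variable {W : Type u} [Group W] {n : ℕ}

/-- Left translation of an edge of the complete directed graph on `W`. -/
def edgeAct (w : W) (e : W × W) : W × W := (w * e.1, w * e.2)

/-- Left translation of a 1-chain. -/
noncomputable def chainAct (w : W) (f : (W × W) →₀ ZMod n) : (W × W) →₀ ZMod n :=
  Finsupp.mapDomain (edgeAct w) f

/-- Pairing of a 1-chain with a 1-cochain. -/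
noncomputable def pairing (φ : W × W → ZMod n) (f : (W × W) →₀ ZMod n) : ZMod n :=
  Finsupp.linearCombination (ZMod n) φ f

theorem edgeAct_injective (w : W) : Function.Injective (edgeAct w) := by
  rintro ⟨a, b⟩ ⟨c, d⟩ h
  simp only [edgeAct, Prod.mk.injEq, mul_right_inj] at h
  exact Prod.ext h.1 h.2

@[simp] theorem chainAct_one (f : (W × W) →₀ ZMod n) : chainAct (1 : W) f = f := by
  have : edgeAct (1 : W) = id := by
    funext e; simp [edgeAct]
  simp [chainAct, this]

theorem chainAct_mul (v w : W) (f : (W × W) →₀ ZMod n) :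
    chainAct (v * w) f = chainAct v (chainAct w f) := by
  have : edgeAct (v * w) = edgeAct v ∘ edgeAct w := by
    funext e; simp [edgeAct, mul_assoc]
  simp [chainAct, this, Finsupp.mapDomain_comp]

@[simp] theorem chainAct_add (w : W) (f g : (W × W) →₀ ZMod n) :
    chainAct w (f + g) = chainAct w f + chainAct w g := by
  simp [chainAct, Finsupp.mapDomain_add]

@[simp] theorem chainAct_zero (w : W) : chainAct w (0 : (W × W) →₀ ZMod n) = 0 := by
  simp [chainAct]

@[simp] theorem chainAct_neg (w : W) (f : (W × W) →₀ ZMod n) :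
    chainAct w (-f) = -chainAct w f := by
  have := chainAct_add w f (-f)
  rw [add_neg_cancel, chainAct_zero] at this
  exact (neg_eq_of_add_eq_zero_right this.symm).symm

@[simp] theorem pairing_add (φ : W × W → ZMod n) (f g : (W × W) →₀ ZMod n) :
    pairing φ (f + g) = pairing φ f + pairing φ g := by
  simp [pairing]

@[simp] theorem pairing_zero (φ : W × W → ZMod n) : pairing φ 0 = 0 := by
  simp [pairing]

@[simp] theorem pairing_neg (φ : W × W → ZMod n) (f : (W × W) →₀ ZMod n) :
    pairing φ (-f) = -pairing φ f := by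
  simp [pairing]

theorem pairing_chainAct (φ : W × W → ZMod n) (w : W) (f : (W × W) →₀ ZMod n) :
    pairing φ (chainAct w f) = pairing (φ ∘ edgeAct w) f := by
  simp [pairing, chainAct, Finsupp.linearCombination_mapDomain]

theorem pairing_sum_left {ι : Type} (s : Finset ι) (φ : ι → W × W → ZMod n)
    (f : (W × W) →₀ ZMod n) :
    pairing (fun e => ∑ j ∈ s, φ j e) f = ∑ j ∈ s, pairing (φ j) f := by
  simp only [pairing, Finsupp.linearCombination_apply, Finsupp.sum, smul_eq_mul, Finset.mul_sum]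
  exact Finset.sum_comm

/-- Coboundary of a 0-cochain. -/
def cobd (h : W → ZMod n) (e : W × W) : ZMod n := h e.2 - h e.1

theorem cobd_comp (h : W → ZMod n) (w : W) :
    cobd h ∘ edgeAct w = cobd (fun x => h (w * x)) := by
  funext e; simp [cobd, edgeAct]

/-- A height function along the orbits of an element of prime order. -/
theorem exists_height {w : W} {q : ℕ} (hq : q.Prime) (h1 : w ≠ 1) (h3 : w ^ q = 1) :
    ∃ h : W → ZMod q, ∀ x, h (w * x) = h x + 1 := by
  classical
  have : Fact q.Prime := ⟨hq⟩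
  have ho : orderOf w = q := orderOf_eq_prime h3 h1
  let lg : W → ZMod q := fun y => if hy : ∃ j : ℕ, w ^ j = y then (hy.choose : ZMod q) else 0
  have hlg0 : ∀ j : ℕ, lg (w ^ j) = j := fun j => by
    have hy : ∃ i : ℕ, w ^ i = w ^ j := ⟨j, rfl⟩
    simp only [lg, dif_pos hy]
    rw [ZMod.natCast_eq_natCast_iff, ← ho, ← pow_eq_pow_iff_modEq]
    exact hy.choose_spec
  have hlg : ∀ y ∈ Subgroup.zpowers w, lg (w * y) = lg y + 1 := by
    intro y hy
    have hfin : IsOfFinOrder w := isOfFinOrder_iff_pow_eq_one.mpr ⟨q, hq.pos, h3⟩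
    obtain ⟨j, rfl⟩ := (hfin.mem_powers_iff_mem_zpowers).mpr hy
    show lg (w * w ^ j) = lg (w ^ j) + 1
    rw [← pow_succ', hlg0, hlg0, Nat.cast_succ]
  let s : Setoid W := QuotientGroup.rightRel (Subgroup.zpowers w)
  let r : W → W := fun x => (Quotient.mk s x).out
  have hr : ∀ x, x * (r x)⁻¹ ∈ Subgroup.zpowers w := by
    intro x
    have : s (r x) x := Quotient.mk_out (s := s) x
    exact QuotientGroup.rightRel_apply.mp this
  have hr' : ∀ x, r (w * x) = r x := by
    intro x
    have : s x (w * x) := QuotientGroup.rightRel_apply.mpr (by simp)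
    simp only [r]
    rw [Quotient.sound this]
  refine ⟨fun x => lg (x * (r x)⁻¹), fun x => ?_⟩
  show lg (w * x * (r (w * x))⁻¹) = lg (x * (r x)⁻¹) + 1
  rw [hr', mul_assoc, hlg _ (hr x)]

theorem sum_range_shift {q : ℕ} (hq : q.Prime) {M : Type*} [AddCommMonoid M] (f : ZMod q → M)
    [Fintype (ZMod q)] (i k : ZMod q) (hk : k ≠ 0) :
    ∑ j ∈ Finset.range q, f (i + j * k) = ∑ x, f x := by
  have : Fact q.Prime := ⟨hq⟩
  refine Finset.sum_nbij' (fun j => i + j * k) (fun x => ((x - i) / k).val) (by simp)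
    (fun x _ => Finset.mem_range.2 (ZMod.val_lt _)) (fun j hj => ?_) (fun x _ => ?_)
    fun _ _ => rfl
  · rw [add_sub_cancel_left, mul_div_cancel_right₀ _ hk, ZMod.val_cast_of_lt
      (Finset.mem_range.1 hj)]
  · rw [ZMod.natCast_zmod_val, div_mul_cancel₀ _ hk, add_sub_cancel]

end

/-- Magnus-type extension of `W`: pairs of a 1-chain mod `n` and a group element `w`
such that the boundary of the chain is `w - 1`. -/
@[ext] structure Mag (n : ℕ) (W : Type u) [Group W] where
  f : (W × W) →₀ ZMod n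
  w : W
  bd : ∀ h : W → ZMod n, pairing (cobd h) f = h w - h 1

namespace Mag
variable {W : Type u} [Group W] {n : ℕ}

noncomputable instance : One (Mag n W) := ⟨⟨0, 1, by intro h; simp⟩⟩

noncomputable instance : Mul (Mag n W) := ⟨fun x y => ⟨x.f + chainAct x.w y.f, x.w * y.w, by
  intro h
  rw [pairing_add, pairing_chainAct, cobd_comp, x.bd, y.bd]
  simp⟩⟩

noncomputable instance : Inv (Mag n W) := ⟨fun x => ⟨-chainAct x.w⁻¹ x.f, x.w⁻¹, by
  intro h
  rw [pairing_neg, pairing_chainAct, cobd_comp, x.bd]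
  simp⟩⟩

@[simp] theorem one_f : (1 : Mag n W).f = 0 := rfl
@[simp] theorem one_w : (1 : Mag n W).w = 1 := rfl
@[simp] theorem mul_f (x y : Mag n W) : (x * y).f = x.f + chainAct x.w y.f := rfl
@[simp] theorem mul_w (x y : Mag n W) : (x * y).w = x.w * y.w := rfl
@[simp] theorem inv_f (x : Mag n W) : (x⁻¹).f = -chainAct x.w⁻¹ x.f := rfl
@[simp] theorem inv_w (x : Mag n W) : (x⁻¹).w = x.w⁻¹ := rfl

noncomputable instance : Group (Mag n W) :=
  Group.ofLeftAxioms
    (by intro x y z; ext1 <;> simp [chainAct_mul, add_assoc, mul_assoc])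
    (by intro x; ext1 <;> simp)
    (by intro x; ext1 <;> simp)

/-- The projection to `W`. -/
noncomputable def proj : Mag n W →* W where
  toFun x := x.w
  map_one' := rfl
  map_mul' _ _ := rfl

@[simp] theorem proj_apply (x : Mag n W) : proj x = x.w := rfl

theorem proj_surjective : Function.Surjective (proj : Mag n W →* W) := by
  intro w
  refine ⟨⟨Finsupp.single (1, w) 1, w, ?_⟩, rfl⟩
  intro h
  simp [pairing, cobd]

theorem pow_w (x : Mag n W) (m : ℕ) : (x ^ m).w = x.w ^ m := map_pow proj x m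

theorem pow_f (x : Mag n W) (m : ℕ) :
    (x ^ m).f = ∑ j ∈ Finset.range m, chainAct (x.w ^ j) x.f := by
  induction m with
  | zero => simp
  | succ m ih => rw [pow_succ, mul_f, ih, pow_w, Finset.sum_range_succ]

theorem pow_eq_one_of_w {x : Mag n W} (hx : x.w = 1) : x ^ n = 1 := by
  ext1
  · rw [pow_f]
    ext e
    simp [hx]
  · simp [pow_w, hx]

theorem comm_of_w {x y : Mag n W} (hx : x.w = 1) (hy : y.w = 1) : x * y = y * x := by
  ext1
  · simp [hx, hy, add_comm]
  · simp [hx, hy]

theorem isPGroup (hW : IsPGroup n W) : IsPGroup n (Mag n W) := by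
  intro x
  obtain ⟨m, hm⟩ := hW x.w
  refine ⟨m + 1, ?_⟩
  rw [pow_succ, pow_mul]
  apply pow_eq_one_of_w
  rw [pow_w, hm]

/-- Every element of prime order dividing `n` lies in the kernel of the projection. -/
theorem w_eq_one_of_pow (hn : n ≠ 0) {q : ℕ} (hq : q.Prime) (hqn : q ∣ n) {x : Mag n W}
    (hx : x ^ q = 1) : x.w = 1 := by
  classical
  have : Fact q.Prime := ⟨hq⟩
  by_contra h1
  have h3 : x.w ^ q = 1 := by rw [← pow_w, hx, one_w]
  obtain ⟨h, hh⟩ := exists_height hq h1 h3
  have hj : ∀ (j : ℕ) (y : W), h (x.w ^ j * y) = h y + j * 1 := fun j y => by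
    induction j with
    | zero => simp
    | succ j ih => rw [pow_succ', mul_assoc, hh, ih]; push_cast; ring
  obtain ⟨d, rfl⟩ := hqn
  let ι : ZMod q →+ ZMod (q * d) := ZMod.lift q ⟨zmultiplesHom _ (d : ZMod (q * d)), by
    rw [zmultiplesHom_apply, natCast_zsmul, nsmul_eq_mul, ← Nat.cast_mul, ZMod.natCast_self]⟩
  have hι : ι 1 = d := by
    have := ZMod.lift_coe q ⟨zmultiplesHom _ (d : ZMod (q * d)), by
      rw [zmultiplesHom_apply, natCast_zsmul, nsmul_eq_mul, ← Nat.cast_mul, ZMod.natCast_self]⟩ 1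
    simpa using this
  let ψ : W × W → ZMod (q * d) := fun e => if h e.1 = 0 then ι (h e.2 - h e.1) else 0
  have hψ : (fun e => ∑ j ∈ Finset.range q, (ψ ∘ edgeAct (x.w ^ j)) e) =
      cobd fun y => ι (h y) := by
    funext e
    simp only [Function.comp, ψ, edgeAct, cobd, hj, add_sub_add_right_eq_sub]
    rw [sum_range_shift hq (fun a => if a = 0 then ι (h e.2 - h e.1) else 0) _ _ one_ne_zero]
    simp
  have h0 : pairing ψ (x ^ q).f = 0 := by rw [hx, one_f, pairing_zero]
  rw [pow_f, pairing, map_sum] at h0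
  change ∑ j ∈ Finset.range q, pairing ψ (chainAct (x.w ^ j) x.f) = 0 at h0
  simp only [pairing_chainAct] at h0
  rw [← pairing_sum_left, hψ, x.bd, ← map_sub] at h0
  have h2 := hh 1
  rw [mul_one] at h2
  rw [h2, add_sub_cancel_left, hι, ZMod.natCast_eq_zero_iff] at h0
  have hd : 0 < d := Nat.pos_of_ne_zero fun h => hn (by rw [h, mul_zero])
  have := Nat.le_of_dvd hd h0
  have := hq.two_le
  nlinarith

theorem conj_image_finite {z : Mag n W} (hzw : z.w = 1) (hz1 : z ≠ 1) {S : Set (Mag n W)}
    (hS : S.Finite) : (proj '' {c : Mag n W | c * z * c⁻¹ ∈ S}).Finite := by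
  classical
  have hzf : z.f ≠ 0 := fun h0 => hz1 (Mag.ext h0 hzw)
  obtain ⟨e0, he0⟩ := Finsupp.support_nonempty_iff.mpr hzf
  let U : Set (W × W) := ⋃ y ∈ S, (y.f.support : Set (W × W))
  have hU : U.Finite := hS.biUnion (fun y _ => y.f.support.finite_toSet)
  have hinj : Function.Injective (fun w : W => edgeAct w e0) := by
    intro a b hab
    have := congrArg Prod.fst hab
    simpa [edgeAct] using this
  refine (hU.preimage hinj.injOn).subset ?_
  rintro _ ⟨c, hc, rfl⟩
  have hcf : (c * z * c⁻¹).f = chainAct c.w z.f := by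
    simp [hzw, ← chainAct_mul]
  refine Set.mem_biUnion hc ?_
  rw [hcf]
  simp only [Finset.mem_coe, chainAct, proj_apply]
  rw [Finsupp.mapDomain_support_of_injective (edgeAct_injective _)]
  exact Finset.mem_image_of_mem _ he0

end Mag

/-- The properties of the projection that pass to subgroups. -/
structure Cover (n : ℕ) {G W : Type u} [Group G] [Group W] (π : G →* W) : Prop where
  ne : n ≠ 0
  pg : IsPGroup n G
  comm : ∀ x ∈ π.ker, ∀ y ∈ π.ker, x * y = y * x
  pow : ∀ x ∈ π.ker, x ^ n = 1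
  prime : ∀ (x : G) (q : ℕ), q.Prime → x ^ q = 1 → x ∈ π.ker
  fin : ∀ z ∈ π.ker, z ≠ 1 → ∀ S : Set G, S.Finite → (π '' {c | c * z * c⁻¹ ∈ S}).Finite

theorem Mag.cover {W : Type u} [Group W] {n : ℕ} (hn : n ≠ 0) (hW : IsPGroup n W) :
    Cover n (Mag.proj : Mag n W →* W) := by
  refine ⟨hn, Mag.isPGroup hW, fun x hx y hy => Mag.comm_of_w hx hy,
    fun x hx => Mag.pow_eq_one_of_w hx, fun x q hq hx => ?_,
    fun z hz hz1 S hS => Mag.conj_image_finite hz hz1 hS⟩
  by_cases h1 : x = 1
  · exact h1 ▸ Subgroup.one_mem _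
  have : Fact q.Prime := ⟨hq⟩
  obtain ⟨m, hm⟩ := Mag.isPGroup hW x
  exact Mag.w_eq_one_of_pow hn hq
    (hq.dvd_of_dvd_pow (orderOf_eq_prime hx h1 ▸ orderOf_dvd_of_pow_eq_one hm)) hx

namespace Cover

variable {n : ℕ} {G W : Type u} [Group G] [Group W] {π : G →* W}

theorem subgroup (h : Cover n π) (K : Subgroup G) : Cover n (π.comp K.subtype) := by
  refine ⟨h.ne, h.pg.to_subgroup K, fun x hx y hy => Subtype.ext (h.comm _ hx _ hy),
    fun x hx => Subtype.ext (h.pow _ hx), fun x q hq hx => h.prime x q hq (congrArg Subtype.val hx),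
    fun z hz hz1 S hS => ?_⟩
  refine (h.fin z hz (fun h1 => hz1 (Subtype.ext h1)) _ (hS.image K.subtype)).subset ?_
  rintro _ ⟨c, hc, rfl⟩
  exact ⟨c, ⟨_, hc, rfl⟩, rfl⟩

/-- A finitely generated subgroup with finite image is finite. -/
theorem finite_of_fg (h : Cover n π) (K : Subgroup G) (hK : K.FG)
    (hfin : (π '' (K : Set G)).Finite) : (K : Set G).Finite := by
  have : Group.FG K := (Group.fg_iff_subgroup_fg K).mpr hK
  let ρ : K →* W := π.comp K.subtype
  have hr : Finite ρ.range := by
    have : (ρ.range : Set W) ⊆ π '' (K : Set G) := by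
      rintro _ ⟨k, rfl⟩
      exact ⟨k, k.2, rfl⟩
    exact (hfin.subset this).to_subtype
  have hker : Finite ρ.ker := by
    have : ρ.ker.FiniteIndex := Subgroup.finiteIndex_ker ρ
    have hfg : Group.FG ρ.ker := Subgroup.fg_of_index_ne_zero _
    let _ : CommGroup ρ.ker :=
      { (inferInstance : Group ρ.ker) with
        mul_comm := fun a b => Subtype.ext (Subtype.ext (h.comm _ a.2 _ b.2)) }
    refine CommGroup.finite_of_fg_isMulTorsion ρ.ker ?_
    intro a
    refine isOfFinOrder_iff_pow_eq_one.mpr ⟨n, Nat.pos_of_ne_zero h.ne, ?_⟩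
    exact Subtype.ext (Subtype.ext (h.pow _ a.2))
  have : Finite K := ρ.finite_iff_finite_ker_range.mpr ⟨hker, hr⟩
  exact Set.toFinite _

/-- The normaliser of a nontrivial finite subgroup has finite image. -/
theorem normalizer_image_finite (h : Cover n π) (H : Subgroup G) [Finite H] (hne : H ≠ ⊥) :
    (π '' ((Subgroup.normalizer (H : Set G) : Subgroup G) : Set G)).Finite := by
  obtain ⟨q, hq, hd⟩ := Nat.exists_prime_and_dvd (mt (Subgroup.card_eq_one (H := H)).1 hne)
  have : Fact q.Prime := ⟨hq⟩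
  obtain ⟨z, hz⟩ := exists_prime_orderOf_dvd_card' q hd
  have hz1 : (z : G) ≠ 1 := fun h1 => by
    rw [show z = 1 from Subtype.ext h1, orderOf_one] at hz
    exact hq.one_lt.ne hz
  have hzq : (z : G) ^ q = 1 := by
    rw [← hz, ← Subgroup.coe_pow, pow_orderOf_eq_one, Subgroup.coe_one]
  exact (h.fin z (h.prime _ q hq hzq) hz1 H (Set.toFinite _)).subset
    (Set.image_mono fun c hc => (hc z).mp z.2)

/-- Finitely many elements of prime order of the quotient of a normaliser generate a finite
group. -/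
theorem primFinite (h : Cover n π) (H : Subgroup G) (hH : Finite H)
    (S : Set (Subgroup.normalizer (H : Set G) ⧸ H.subgroupOf (Subgroup.normalizer (H : Set G))))
    (hS : S.Finite) (hpr : ∀ a ∈ S, (orderOf a).Prime) : Finite (Subgroup.closure S) := by
  let N := Subgroup.normalizer (H : Set G)
  let φ := QuotientGroup.mk' (H.subgroupOf N)
  choose r hr using QuotientGroup.mk'_surjective (H.subgroupOf N)
  have hp : ∀ a, (r a : G) ^ orderOf a ∈ H := fun a => by
    have h1 : φ (r a ^ orderOf a) = 1 := by rw [map_pow, hr, pow_orderOf_eq_one]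
    exact (QuotientGroup.eq_one_iff (N := H.subgroupOf N) (r a ^ orderOf a)).1 h1
  have hfin : (Subgroup.closure (N.subtype '' (r '' S)) : Set G).Finite := by
    refine h.finite_of_fg _ ((Subgroup.fg_iff _).mpr ⟨_, rfl, (hS.image _).image _⟩) ?_
    by_cases hne : H = ⊥
    · have hle : Subgroup.closure (N.subtype '' (r '' S)) ≤ π.ker := by
        rw [Subgroup.closure_le]
        rintro _ ⟨_, ⟨a, ha, rfl⟩, rfl⟩
        exact h.prime _ _ (hpr a ha) (Subgroup.mem_bot.1 (hne ▸ hp a))
      refine (Set.finite_singleton (1 : W)).subset ?_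
      rintro _ ⟨x, hx, rfl⟩
      exact hle hx
    · refine (h.normalizer_image_finite H hne).subset (Set.image_mono ?_)
      have hle : Subgroup.closure (N.subtype '' (r '' S)) ≤ N := by
        rw [Subgroup.closure_le]
        rintro _ ⟨x, -, rfl⟩
        exact x.2
      exact hle
  have h2 : (Subgroup.closure (r '' S) : Set N).Finite := by
    refine Set.Finite.of_finite_image (f := N.subtype) ?_ Subtype.val_injective.injOn
    rw [← Subgroup.coe_map, MonoidHom.map_closure]
    exact hfin
  have h3 := h2.image φ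
  rw [← Subgroup.coe_map, MonoidHom.map_closure, Set.image_image] at h3
  simp only [φ, hr, Set.image_id'] at h3
  exact h3.to_subtype

end Cover

/-- Every group whose elements have orders dividing powers of `n` has a cover with the same
generators. -/
theorem exists_cover {n : ℕ} (hn : n ≠ 0) {K : Type u} [Group K] (hK : IsPGroup n K)
    {ι : Type*} (s : ι → K) : ∃ (G : Type u) (_ : Group G) (π : G →* K) (t : ι → G),
      Cover n π ∧ Subgroup.closure (Set.range t) = ⊤ ∧ ∀ i, π (t i) = s i := by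
  choose t ht using fun i => Mag.proj_surjective (n := n) (s i)
  refine ⟨Subgroup.closure (Set.range t), inferInstance, _,
    fun i => ⟨t i, Subgroup.subset_closure ⟨i, rfl⟩⟩, (Mag.cover hn hK).subgroup _, ?_, ht⟩
  rw [← Subgroup.closure_closure_coe_preimage]
  congr 1
  ext x
  simp [Subtype.ext_iff]

end Pool.Agent.Lib.MP_068a9c_al.Gen
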