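import Pool.Agent.Lib.MP_068a9c_al.Section
import Pool.Agent.Lib.MP_068a9c_al.MagN

set_option autoImplicit false

namespace Pool.Agent.Lib.MP_068a9c_al.Gen

variable {p : ℕ}

/-- Vertices of the `p`-ary rooted tree. -/
abbrev Vx (p : ℕ) : Type := List (ZMod p)

/-- Permutations of the vertices. -/
abbrev PV (p : ℕ) : Type := Equiv.Perm (Vx p)

/-- Act below the first level by the given maps. -/
def nodeFun (g : ZMod p → Vx p → Vx p) : Vx p → Vx p
  | [] => []
  | i :: v => i :: g i v

/-- The permutation acting below the vertex `i` by `g i`. -/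
def node (g : ZMod p → PV p) : PV p where
  toFun := nodeFun (fun i => g i)
  invFun := nodeFun (fun i => (g i).symm)
  left_inv := by rintro (_ | ⟨i, v⟩) <;> simp [nodeFun]
  right_inv := by rintro (_ | ⟨i, v⟩) <;> simp [nodeFun]

@[simp] theorem node_nil (g : ZMod p → PV p) : node g [] = [] := rfl
@[simp] theorem node_cons (g : ZMod p → PV p) (i : ZMod p) (v : Vx p) :
    node g (i :: v) = i :: g i v := rfl

/-- Shift of the first letter. -/
def rotFun (k : ZMod p) : Vx p → Vx p
  | [] => []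
  | i :: v => (i + k) :: v

/-- The rooted rotation by `k`. -/
def rot (k : ZMod p) : PV p where
  toFun := rotFun k
  invFun := rotFun (-k)
  left_inv := by rintro (_ | ⟨i, v⟩) <;> simp [rotFun]
  right_inv := by rintro (_ | ⟨i, v⟩) <;> simp [rotFun]

@[simp] theorem rot_nil (k : ZMod p) : rot k [] = [] := rfl
@[simp] theorem rot_cons (k i : ZMod p) (v : Vx p) : rot k (i :: v) = (i + k) :: v := rfl

theorem rot_zero : rot (0 : ZMod p) = 1 := by
  ext1 v; rcases v with _ | ⟨i, v⟩ <;> simp

theorem rot_add (k l : ZMod p) : rot (k + l) = rot k * rot l := by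
  ext1 v; rcases v with _ | ⟨i, v⟩
  · simp
  · simp [add_comm, add_left_comm]

theorem rot_inv (k : ZMod p) : (rot k)⁻¹ = rot (-k) := by
  rw [inv_eq_iff_mul_eq_one, ← rot_add, add_neg_cancel, rot_zero]

theorem rot_pow (k : ZMod p) (n : ℕ) : rot k ^ n = rot ((n : ZMod p) * k) := by
  induction n with
  | zero => simp [rot_zero]
  | succ n ih => rw [pow_succ, ih, ← rot_add]; congr 1; push_cast; ring

theorem node_one : node (1 : ZMod p → PV p) = 1 := by
  ext1 v; rcases v with _ | ⟨i, v⟩ <;> simp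

theorem node_mul (g h : ZMod p → PV p) : node (g * h) = node g * node h := by
  ext1 v; rcases v with _ | ⟨i, v⟩ <;> simp

theorem node_inv (g : ZMod p → PV p) : (node g)⁻¹ = node g⁻¹ := by
  rw [inv_eq_iff_mul_eq_one, ← node_mul, mul_inv_cancel, node_one]

theorem node_pow (g : ZMod p → PV p) (n : ℕ) : node g ^ n = node (g ^ n) := by
  induction n with
  | zero => simp [node_one]
  | succ n ih => rw [pow_succ, pow_succ, node_mul, ih]

theorem node_injective : Function.Injective (node (p := p)) := by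
  intro g h hgh
  funext i
  ext1 v
  have := congrArg (fun x : PV p => x (i :: v)) hgh
  simpa using this

theorem node_mul_rot (g : ZMod p → PV p) (k : ZMod p) :
    node g * rot k = rot k * node (fun i => g (i + k)) := by
  ext1 v; rcases v with _ | ⟨i, v⟩ <;> simp

theorem rn_mul (k l : ZMod p) (g h : ZMod p → PV p) :
    (rot k * node g) * (rot l * node h) = rot (k + l) * node (fun i => g (i + l) * h i) := by
  ext1 v; rcases v with _ | ⟨i, v⟩
  · simp
  · simp [add_comm, add_left_comm]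

theorem rn_inv (k : ZMod p) (g : ZMod p → PV p) :
    (rot k * node g)⁻¹ = rot (-k) * node (fun i => (g (i - k))⁻¹) := by
  rw [inv_eq_iff_mul_eq_one]
  ext1 v; rcases v with _ | ⟨i, v⟩
  · simp
  · simp [sub_eq_add_neg]

/-- Torsion of `p`-power order. -/
def Tor (x : PV p) : Prop := ∃ m : ℕ, x ^ (p ^ m) = 1

theorem Tor.mono {x : PV p} {m n : ℕ} (h : x ^ (p ^ m) = 1) (hmn : m ≤ n) :
    x ^ (p ^ n) = 1 := by
  obtain ⟨d, rfl⟩ := Nat.exists_eq_add_of_le hmn
  rw [pow_add, pow_mul, h, one_pow]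

theorem tor_of_pow {x : PV p} (h : Tor (x ^ p)) : Tor x := by
  obtain ⟨m, hm⟩ := h
  refine ⟨m + 1, ?_⟩
  rw [pow_succ', pow_mul, hm]

/-- The rotation exponents of the directed generator. -/
def cc (i : ZMod p) : ZMod p := (if i = 0 then 1 else 0) - if i = 1 then 1 else 0

/-- The directed generator of the Gupta-Sidki group, with a parameter. -/
def tFun (e : ZMod p) : Vx p → Vx p
  | [] => []
  | i :: v => i :: (if i = -1 then tFun e v else rotFun (e * cc i) v)

theorem tFun_add (e d : ZMod p) (v : Vx p) : tFun e (tFun d v) = tFun (e + d) v := by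
  induction v with
  | nil => rfl
  | cons i v ih =>
    simp only [tFun]
    split_ifs with h0
    · rw [ih]
    · congr 1
      rw [add_mul]
      exact congrArg (fun x : PV p => x v) (rot_add _ _).symm

theorem tFun_zero (v : Vx p) : tFun 0 v = v := by
  induction v with
  | nil => rfl
  | cons i v ih =>
    simp only [tFun, zero_mul]
    have : rotFun 0 v = v := congrArg (fun x : PV p => x v) rot_zero
    split_ifs <;> simp [this, ih]

/-- The directed generator as a permutation. -/
def tt (e : ZMod p) : PV p where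
  toFun := tFun e
  invFun := tFun (-e)
  left_inv := by intro v; rw [tFun_add, neg_add_cancel, tFun_zero]
  right_inv := by intro v; rw [tFun_add, add_neg_cancel, tFun_zero]

theorem tt_add (e d : ZMod p) : tt (e + d) = tt e * tt d := by
  ext1 v; exact (tFun_add e d v).symm

theorem tt_zero : tt (0 : ZMod p) = 1 := by
  ext1 v; exact tFun_zero v

theorem tt_pow (k : ZMod p) (n : ℕ) : tt k ^ n = tt ((n : ZMod p) * k) := by
  induction n with
  | zero => simp [tt_zero]
  | succ n ih => rw [pow_succ, ih, ← tt_add]; congr 1; push_cast; ring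

/-- First-level sections of the directed generator. -/
def tau (i : ZMod p) : PV p := if i = -1 then tt 1 else rot (cc i)

theorem tt_eq_node : tt (1 : ZMod p) = node tau := by
  ext1 v; rcases v with _ | ⟨i, v⟩
  · rfl
  · rw [node_cons]
    show tFun 1 (i :: v) = _
    simp only [tFun, tau, one_mul]
    split_ifs <;> rfl

theorem tor_tt (k : ZMod p) : Tor (tt k) := ⟨1, by simp [tt_pow, tt_zero]⟩

/-- Words: `some k` is a rotation, `none` the directed generator. -/
def ev : List (Option (ZMod p)) → PV p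
  | [] => 1
  | some k :: u => rot k * ev u
  | none :: u => tt 1 * ev u

/-- Rotation exponent of a word. -/
def ac : List (Option (ZMod p)) → ZMod p
  | [] => 0
  | some k :: u => k + ac u
  | none :: u => ac u

/-- Number of directed letters of a word. -/
def nt : List (Option (ZMod p)) → ℕ
  | [] => 0
  | some _ :: u => nt u
  | none :: u => nt u + 1

/-- Words for the sections of the directed generator. -/
def tauW (i : ZMod p) : List (Option (ZMod p)) := if i = -1 then [none] else [some (cc i)]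

/-- First-level sections of a word. -/
def sec : List (Option (ZMod p)) → ZMod p → List (Option (ZMod p))
  | [], _ => []
  | some _ :: u, i => sec u i
  | none :: u, i => tauW (i + ac u) ++ sec u i

theorem ev_append (u v : List (Option (ZMod p))) : ev (u ++ v) = ev u * ev v := by
  induction u with
  | nil => simp [ev]
  | cons c u ih => cases c <;> simp [ev, ih, mul_assoc]

theorem ac_append (u v : List (Option (ZMod p))) : ac (u ++ v) = ac u + ac v := by
  induction u with
  | nil => simp [ac]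
  | cons c u ih => cases c <;> simp [ac, ih, add_assoc]

theorem nt_append (u v : List (Option (ZMod p))) : nt (u ++ v) = nt u + nt v := by
  induction u with
  | nil => simp [nt]
  | cons c u ih => cases c <;> simp [nt, ih]; omega

theorem ev_tauW (i : ZMod p) : ev (tauW i) = tau i := by
  unfold tauW tau
  split_ifs <;> simp [ev]

theorem ev_eq (u : List (Option (ZMod p))) :
    ev u = rot (ac u) * node (fun i => ev (sec u i)) := by
  induction u with
  | nil =>
    simp only [ev, ac, sec, rot_zero, one_mul]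
    exact node_one.symm
  | cons c u ih =>
    cases c
    · simp only [ev, ac, sec, ev_append, ev_tauW]
      conv_lhs => rw [ih, tt_eq_node]
      rw [← mul_assoc, node_mul_rot, mul_assoc, ← node_mul]
      rfl
    · simp only [ev, ac, sec]
      rw [rot_add, mul_assoc, ← ih]

theorem nt_tauW (j : ZMod p) : nt (tauW j) = if j = -1 then 1 else 0 := by
  unfold tauW
  split_ifs <;> simp [nt]

theorem nt_sec_le (u : List (Option (ZMod p))) (i : ZMod p) : nt (sec u i) ≤ nt u := by
  induction u with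
  | nil => simp [sec]
  | cons c u ih =>
    cases c
    · simp only [sec, nt, nt_append, nt_tauW]
      split_ifs <;> omega
    · simpa [sec, nt] using ih

theorem ev_sec_of_eq (u : List (Option (ZMod p))) (i : ZMod p) (h : nt (sec u i) = nt u) :
    ∃ e, ev (sec u i) = tt e := by
  induction u with
  | nil => exact ⟨0, by simp [sec, ev, tt_zero]⟩
  | cons c u ih =>
    cases c
    · have h2 := nt_sec_le u i
      simp only [sec, nt, nt_append, nt_tauW] at h
      split_ifs at h with h3
      · obtain ⟨e, he⟩ := ih (by omega)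
        exact ⟨1 + e, by simp only [sec, ev_append, ev_tauW, tau, h3, if_true, he, tt_add]⟩
      · omega
    · exact ih (by simpa [sec, nt] using h)

/-- Words for the sections of a power. -/
def pw (u : List (Option (ZMod p))) : ℕ → ZMod p → List (Option (ZMod p))
  | 0, _ => []
  | n + 1, i => sec u (i + n * ac u) ++ pw u n i

theorem ev_pow (u : List (Option (ZMod p))) (n : ℕ) :
    ev u ^ n = rot ((n : ZMod p) * ac u) * node (fun i => ev (pw u n i)) := by
  induction n with
  | zero =>
    simp only [pow_zero, Nat.cast_zero, zero_mul, rot_zero, one_mul, pw, ev]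
    exact node_one.symm
  | succ n ih =>
    rw [pow_succ', ih]
    conv_lhs => rw [ev_eq u]
    rw [rn_mul]
    simp only [pw, ev_append]
    congr 2
    push_cast
    ring

theorem nt_pw (u : List (Option (ZMod p))) (n : ℕ) (i : ZMod p) :
    nt (pw u n i) = ∑ j ∈ Finset.range n, nt (sec u (i + j * ac u)) := by
  induction n with
  | zero => rfl
  | succ n ih => rw [pw, nt_append, ih, Finset.sum_range_succ, add_comm]

theorem ac_pw (u : List (Option (ZMod p))) (n : ℕ) (i : ZMod p) :
    ac (pw u n i) = ∑ j ∈ Finset.range n, ac (sec u (i + j * ac u)) := by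
  induction n with
  | zero => rfl
  | succ n ih => rw [pw, ac_append, ih, Finset.sum_range_succ, add_comm]

/-- The Gupta-Sidki group. -/
def GS (p : ℕ) : Subgroup (PV p) := Subgroup.closure {rot 1, tt 1}

theorem tt_mem : tt 1 ∈ GS p := Subgroup.subset_closure (by simp)

variable [Fact p.Prime]

theorem tor_node {g : ZMod p → PV p} (h : ∀ i, Tor (g i)) : Tor (node g) := by
  choose m hm using h
  refine ⟨∑ i, m i, ?_⟩
  rw [node_pow, ← node_one]
  congr 1
  funext i
  exact Tor.mono (hm i) (Finset.single_le_sum (f := m) (fun _ _ => Nat.zero_le _)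
    (Finset.mem_univ i))

theorem sum_nt_sec (u : List (Option (ZMod p))) : ∑ i, nt (sec u i) = nt u := by
  induction u with
  | nil => simp [sec, nt]
  | cons c u ih =>
    cases c
    · simp only [sec, nt, nt_append, Finset.sum_add_distrib, ih]
      erw [Equiv.sum_comp (Equiv.addRight (ac u)) fun j => nt (tauW j)]
      simp [nt_tauW, add_comm]
    · simpa [sec, nt] using ih

theorem one_ne_neg (hp : Odd p) : (1 : ZMod p) ≠ -1 := fun h => by
  have h2 : ((2 : ℕ) : ZMod p) = 0 := by push_cast; linear_combination h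
  rw [ZMod.natCast_eq_zero_iff, Nat.prime_dvd_prime_iff_eq Fact.out Nat.prime_two] at h2
  subst h2
  exact absurd hp (by decide)

theorem sum_ac_sec (hp : Odd p) (u : List (Option (ZMod p))) : ∑ i, ac (sec u i) = 0 := by
  induction u with
  | nil => simp [sec, ac]
  | cons c u ih =>
    cases c
    · simp only [sec, ac_append, Finset.sum_add_distrib, ih, add_zero]
      erw [Equiv.sum_comp (Equiv.addRight (ac u)) fun j => ac (tauW j)]
      have : ∀ j : ZMod p, ac (tauW j) = cc j := fun j => by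
        unfold tauW
        split_ifs with h
        · simp [ac, cc, h, (one_ne_neg hp).symm]
        · simp [ac]
      simp [this, cc]
    · simpa [sec, ac] using ih

theorem tor_ev_aux (hp : Odd p) (n : ℕ) :
    ∀ u : List (Option (ZMod p)), nt u < n → Tor (ev u) := by
  induction n with
  | zero => intro u hu; omega
  | succ n ih =>
    have h0 : ∀ u : List (Option (ZMod p)), nt u < n + 1 → ac u = 0 → Tor (ev u) := by
      intro u hu ha
      rw [ev_eq, ha, rot_zero, one_mul]
      refine tor_node fun i => ?_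
      have h1 := nt_sec_le u i
      by_cases h2 : nt (sec u i) = nt u
      · obtain ⟨e, he⟩ := ev_sec_of_eq u i h2
        rw [he]; exact tor_tt e
      · exact ih _ (by omega)
    intro u hu
    by_cases ha : ac u = 0
    · exact h0 u hu ha
    · apply tor_of_pow
      rw [ev_pow, ZMod.natCast_self, zero_mul, rot_zero, one_mul]
      refine tor_node fun i => h0 _ ?_ ?_
      · rw [nt_pw, sum_range_shift Fact.out (fun j => nt (sec u j)) _ _ ha, sum_nt_sec]
        exact hu
      · rw [ac_pw, sum_range_shift Fact.out (fun j => ac (sec u j)) _ _ ha, sum_ac_sec hp]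

theorem tor_ev (hp : Odd p) (u : List (Option (ZMod p))) : Tor (ev u) :=
  tor_ev_aux hp _ u (Nat.lt_succ_self _)

theorem rot_mem (k : ZMod p) : rot k ∈ GS p := by
  have h1 : rot 1 ∈ GS p := Subgroup.subset_closure (by simp)
  simpa [rot_pow] using (GS p).pow_mem h1 k.val

theorem tau_mem (i : ZMod p) : tau i ∈ GS p := by
  unfold tau
  split_ifs
  exacts [tt_mem, rot_mem _]

theorem ev_mem (u : List (Option (ZMod p))) : ev u ∈ GS p := by
  induction u with
  | nil => exact (GS p).one_mem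
  | cons c u ih =>
    cases c
    · exact (GS p).mul_mem tt_mem ih
    · exact (GS p).mul_mem (rot_mem _) ih

theorem exists_word (hp : Odd p) {x : PV p} (hx : x ∈ GS p) : ∃ u, ev u = x := by
  induction hx using Subgroup.closure_induction with
  | mem z hz =>
    rcases hz with rfl | rfl
    · exact ⟨[some 1], by simp [ev]⟩
    · exact ⟨[none], by simp [ev]⟩
  | one => exact ⟨[], rfl⟩
  | mul z z' _ _ h1 h2 =>
    obtain ⟨u, rfl⟩ := h1
    obtain ⟨v, rfl⟩ := h2
    exact ⟨u ++ v, ev_append u v⟩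
  | inv z _ h1 =>
    obtain ⟨u, rfl⟩ := h1
    obtain ⟨m, hm⟩ := tor_ev hp u
    have hw : ∀ j : ℕ, ∃ v, ev v = ev u ^ j := by
      intro j
      induction j with
      | zero => exact ⟨[], by simp [ev]⟩
      | succ j ih =>
        obtain ⟨v, hv⟩ := ih
        exact ⟨v ++ u, by rw [ev_append, hv, pow_succ]⟩
    obtain ⟨v, hv⟩ := hw (p ^ m - 1)
    refine ⟨v, ?_⟩
    rw [hv, eq_inv_iff_mul_eq_one, ← pow_succ,
      Nat.sub_add_cancel (Nat.one_le_pow _ _ (Fact.out : p.Prime).pos)]
    exact hm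

theorem GS_isPGroup (hp : Odd p) : IsPGroup p (GS p) := by
  intro x
  obtain ⟨u, hu⟩ := exists_word hp x.2
  obtain ⟨m, hm⟩ := tor_ev hp u
  exact ⟨m, Subtype.ext (by rw [hu] at hm; exact hm)⟩

theorem GS_decomp (hp : Odd p) {x : PV p} (hx : x ∈ GS p) :
    ∃ (k : ZMod p) (g : ZMod p → PV p), (∀ i, g i ∈ GS p) ∧ x = rot k * node g := by
  obtain ⟨u, rfl⟩ := exists_word hp hx
  exact ⟨ac u, _, fun i => ev_mem _, ev_eq u⟩

theorem shift_mem (s : ZMod p) : node (fun i => tau (i + s)) ∈ GS p := by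
  have : node (fun i => tau (i + s)) = rot (-s) * (tt 1 * rot s) := by
    rw [tt_eq_node, node_mul_rot, ← mul_assoc, ← rot_add, neg_add_cancel, rot_zero, one_mul]
  rw [this]
  exact (GS p).mul_mem (rot_mem _) ((GS p).mul_mem tt_mem (rot_mem _))

theorem tau_zero : tau (0 : ZMod p) = rot 1 := by simp [tau, cc]

theorem tau_neg : tau (-1 : ZMod p) = tt 1 := by simp [tau]

theorem tau_one (hp : Odd p) : tau (1 : ZMod p) = (rot 1)⁻¹ := by
  simp [tau, cc, one_ne_neg hp, rot_inv]

theorem lift_GS (i : ZMod p) {y : PV p} (hy : y ∈ GS p) :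
    ∃ x ∈ GS p, ∃ g : ZMod p → PV p, x = node g ∧ g i = y := by
  induction hy using Subgroup.closure_induction with
  | mem z hz =>
    rcases hz with rfl | rfl
    · exact ⟨_, shift_mem (-i), _, rfl, by simp [tau_zero]⟩
    · exact ⟨_, shift_mem (-1 - i), _, rfl, by simp [tau_neg]⟩
  | one => exact ⟨1, (GS p).one_mem, 1, node_one.symm, rfl⟩
  | mul z z' _ _ h1 h2 =>
    obtain ⟨x, hx, g, rfl, rfl⟩ := h1
    obtain ⟨x', hx', g', rfl, rfl⟩ := h2
    exact ⟨_, (GS p).mul_mem hx hx', g * g', (node_mul g g').symm, rfl⟩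
  | inv z _ h1 =>
    obtain ⟨x, hx, g, rfl, rfl⟩ := h1
    exact ⟨_, (GS p).inv_mem hx, g⁻¹, node_inv g, rfl⟩

theorem GS_infinite : (GS p : Set (PV p)).Infinite := by
  have key : ∀ n : ℕ, ∃ x ∈ GS p, ∀ m : ℕ,
      x (List.replicate m 0) = List.replicate m 0 ↔ m ≤ n := by
    intro n
    induction n with
    | zero =>
      refine ⟨rot 1, rot_mem 1, fun m => ?_⟩
      cases m with
      | zero => simp
      | succ m => simp [List.replicate_succ]
    | succ n ih =>
      obtain ⟨y, hy, hy'⟩ := ih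
      obtain ⟨x, hx, g, rfl, rfl⟩ := lift_GS 0 hy
      refine ⟨_, hx, fun m => ?_⟩
      cases m with
      | zero => simp
      | succ m => simp [List.replicate_succ, hy']
  choose x hx hx' using key
  refine Set.infinite_of_injective_forall_mem (f := x) ?_ hx
  intro a b hab
  have h1 := (hx' a b).symm.trans (hab ▸ (hx' b b))
  have h2 := (hx' b a).symm.trans (hab ▸ (hx' a a))
  omega

/-- The first generator. -/
def ga (p : ℕ) [Fact p.Prime] : GS p := ⟨rot 1, rot_mem 1⟩

/-- The second generator. -/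
def gb (p : ℕ) : GS p := ⟨tt 1, tt_mem⟩

theorem closure_gens : Subgroup.closure ({ga p, gb p} : Set (GS p)) = ⊤ := by
  refine Eq.trans ?_ (Subgroup.closure_closure_coe_preimage (k := {rot 1, tt 1}))
  congr 1
  ext x
  simp only [Subtype.ext_iff, ga, gb, Set.mem_insert_iff, Set.mem_singleton_iff]
  rfl

/-- The `i`-th sections of the elements of `M` that fix the first level. -/
def secAt (M : Subgroup (GS p)) (i : ZMod p) : Subgroup (GS p) where
  carrier := {y | ∃ x ∈ M, ∃ g : ZMod p → PV p, (x : PV p) = node g ∧ g i = y}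
  one_mem' := ⟨1, M.one_mem, 1, node_one.symm, rfl⟩
  mul_mem' := by
    rintro y y' ⟨x, hx, g, hg, hy⟩ ⟨x', hx', g', hg', hy'⟩
    refine ⟨x * x', M.mul_mem hx hx', g * g', ?_, ?_⟩
    · rw [node_mul, ← hg, ← hg']; rfl
    · rw [Pi.mul_apply, hy, hy']; rfl
  inv_mem' := by
    rintro y ⟨x, hx, g, hg, hy⟩
    refine ⟨x⁻¹, M.inv_mem hx, g⁻¹, ?_, ?_⟩
    · rw [← node_inv, ← hg]; rfl
    · rw [Pi.inv_apply, hy]; rfl

theorem sec_secAt (M : Subgroup (GS p)) (i : ZMod p) : Sec (secAt M i) M := by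
  refine ⟨{ carrier := {z | ∃ g : ZMod p → PV p, ((z.1 : GS p) : PV p) = node g ∧
                g i = ((z.2 : GS p) : PV p)}
            one_mem' := ⟨1, node_one.symm, rfl⟩
            mul_mem' := ?_
            inv_mem' := ?_ }, ?_, ?_⟩
  · rintro z z' ⟨g, hg, hy⟩ ⟨g', hg', hy'⟩
    refine ⟨g * g', ?_, ?_⟩
    · rw [node_mul, ← hg, ← hg']; rfl
    · rw [Pi.mul_apply, hy, hy']; rfl
  · rintro z ⟨g, hg, hy⟩
    refine ⟨g⁻¹, ?_, ?_⟩
    · rw [← node_inv, ← hg]; rfl
    · rw [Pi.inv_apply, hy]; rfl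
  · rintro ⟨y, x, hx, g, hg, hy⟩
    exact ⟨⟨x, hx⟩, g, hg, hy⟩
  · rintro w ⟨g, hg, hy⟩
    have h1 : g = 1 := node_injective (by rw [node_one, ← hg]; rfl)
    subst h1
    exact Subtype.ext (Subtype.ext hy.symm)

theorem secAt_normal (M : Subgroup (GS p)) (hM : M.Normal) (i : ZMod p) :
    (secAt M i).Normal := by
  constructor
  rintro y ⟨x, hx, g, hg, hy⟩ c
  obtain ⟨_, hc, h, rfl, hi⟩ := lift_GS i c.2
  refine ⟨_, hM.conj_mem x hx ⟨_, hc⟩, h * g * h⁻¹, ?_, ?_⟩
  · rw [node_mul, node_mul, ← node_inv, ← hg]; rfl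
  · simp [hy, hi]

omit [Fact p.Prime] in
theorem eq_one_of_conj_inv {Q : Type} [Group Q] (hQ : IsPGroup p Q) (hp : Odd p) {a d : Q}
    (h : d * a * d⁻¹ = a⁻¹) : a = 1 := by
  have h1 : ∀ j : ℕ, d ^ (2 * j + 1) * a * (d ^ (2 * j + 1))⁻¹ = a⁻¹ := fun j => by
    induction j with
    | zero => simpa using h
    | succ j ih =>
      calc _ = d * (d * (d ^ (2 * j + 1) * a * (d ^ (2 * j + 1))⁻¹)⁻¹ * d⁻¹)⁻¹ * d⁻¹ := by
            group
        _ = a⁻¹ := by rw [ih, inv_inv, h, inv_inv, h]
  obtain ⟨m, hm⟩ := hQ d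
  obtain ⟨j, hj⟩ := hp.pow (n := m)
  have h2 := h1 j
  rw [← hj, hm, one_mul, inv_one, mul_one, eq_inv_iff_mul_eq_one, ← sq] at h2
  obtain ⟨l, hl⟩ := hQ a
  have h3 : a ^ Nat.gcd 2 (p ^ l) = 1 := pow_gcd_eq_one.mpr ⟨h2, hl⟩
  rwa [(Nat.coprime_two_left.2 hp.pow).gcd_eq_one, pow_one] at h3

theorem secAt_eq_top (hp : Odd p) (M : Subgroup (GS p)) (hM : M.Normal) (x : GS p) (hx : x ∈ M)
    (k : ZMod p) (hk : k ≠ 0) (g : ZMod p → PV p) (hgS : ∀ i, g i ∈ GS p)
    (hg : (x : PV p) = rot k * node g) : secAt M 0 = ⊤ := by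
  have := secAt_normal M hM 0
  let φ := QuotientGroup.mk' (secAt M 0)
  let T : ZMod p → GS p := fun s => ⟨tau s, tau_mem s⟩
  let γ : GS p := ⟨g (0 - k), hgS _⟩
  have h1 : ∀ s, φ (T (s + k)) = φ γ * φ (T s) * (φ γ)⁻¹ := fun s => by
    let y : GS p := ⟨_, shift_mem (s + k)⟩
    have h2 : T (s + k) * γ * (T s)⁻¹ * γ⁻¹ ∈ secAt M 0 := by
      refine ⟨_, M.mul_mem (hM.conj_mem x hx y) (M.inv_mem hx), fun j => tau (j + (s + k)) *
        g (j - k) * (tau (j - k + (s + k)))⁻¹ * (g (j - k))⁻¹, ?_, ?_⟩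
      · show node _ * (x : PV p) * (node _)⁻¹ * (x : PV p)⁻¹ = _
        rw [hg, rn_inv, node_inv]
        ext1 v; rcases v with _ | ⟨i, v⟩
        · simp
        · simp [sub_eq_add_neg]
      · simp [T, γ]
    have h3 : φ (T (s + k) * γ * (T s)⁻¹ * γ⁻¹) = 1 := (QuotientGroup.eq_one_iff _).2 h2
    simp only [map_mul, map_inv] at h3
    rw [← mul_inv_eq_one, ← h3]
    group
  have h2 : ∀ j : ℕ, φ (T (j * k)) = φ γ ^ j * φ (T 0) * (φ γ ^ j)⁻¹ := fun j => by
    induction j with
    | zero => simp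
    | succ j ih => rw [Nat.cast_succ, add_mul, one_mul, h1, ih]; group
  have h3 : ∀ s, ∃ d, φ (T s) = d * φ (T 0) * d⁻¹ := fun s =>
    ⟨_, by rw [← h2 (s / k).val, ZMod.natCast_zmod_val, div_mul_cancel₀ _ hk]⟩
  have h4 : φ (T 0) = 1 := by
    obtain ⟨d, hd⟩ := h3 1
    refine eq_one_of_conj_inv ((GS_isPGroup hp).to_quotient _) hp (d := d) ?_
    rw [← hd, ← map_inv]
    exact congrArg φ (Subtype.ext ((tau_one hp).trans (congrArg _ tau_zero.symm)))
  have h5 : ∀ s, T s ∈ secAt M 0 := fun s => by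
    obtain ⟨d, hd⟩ := h3 s
    rw [h4, mul_one, mul_inv_cancel] at hd
    exact (QuotientGroup.eq_one_iff _).1 hd
  rw [eq_top_iff, ← closure_gens, Subgroup.closure_le]
  rintro y (rfl | rfl)
  · rw [show ga p = T 0 from Subtype.ext tau_zero.symm]
    exact h5 _
  · rw [show gb p = T (-1) from Subtype.ext tau_neg.symm]
    exact h5 _

theorem sec_of_moves (hp : Odd p) (v : Vx p) : ∀ M : Subgroup (GS p), M.Normal →
    (∃ x ∈ M, (x : PV p) v ≠ v) → Sec (GS p) M := by
  induction v with
  | nil =>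
    rintro M - ⟨x, -, hx⟩
    obtain ⟨k, g, -, hg⟩ := GS_decomp hp x.2
    rw [hg] at hx
    simp at hx
  | cons i v ih =>
    rintro M hM ⟨x, hx, hv⟩
    obtain ⟨k, g, hgW, hg⟩ := GS_decomp hp x.2
    by_cases hk : k = 0
    · subst hk
      rw [rot_zero, one_mul] at hg
      refine (ih (secAt M i) (secAt_normal M hM i) ⟨⟨g i, hgW i⟩, ⟨x, hx, g, hg, rfl⟩, ?_⟩).trans
        (sec_secAt M i)
      rw [hg] at hv
      simpa using hv
    · have h1 := sec_secAt M 0
      rw [secAt_eq_top hp M hM x hx k hk g hgW hg] at h1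
      exact (Sec.of_surjective (Subgroup.topEquiv (G := GS p)).toMonoidHom
        (Subgroup.topEquiv (G := GS p)).surjective).trans h1

/-- Every nontrivial normal subgroup of the Gupta-Sidki group has the whole group as a
section. -/
theorem GS_sec (hp : Odd p) (M : Subgroup (GS p)) (hM : M.Normal) (hne : M ≠ ⊥) :
    Sec (GS p) M := by
  obtain ⟨x, hx, hx1⟩ : ∃ x ∈ M, x ≠ 1 := by
    by_contra hcon
    apply hne
    rw [eq_bot_iff]
    intro z hz
    by_contra hz1
    exact hcon ⟨z, hz, hz1⟩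
  obtain ⟨v, hv⟩ : ∃ v, (x : PV p) v ≠ v := by
    by_contra hcon
    apply hx1
    refine Subtype.ext (Equiv.ext fun v => ?_)
    by_contra h
    exact hcon ⟨v, h⟩
  exact sec_of_moves hp v M hM ⟨x, hx, hv⟩

theorem GS_not_binFin :
    ¬ ∀ x y : GS p, ((Subgroup.closure ({x, y} : Set (GS p))) : Set (GS p)).Finite := by
  intro h
  have h1 := h (ga p) (gb p)
  rw [closure_gens, Subgroup.coe_top, Set.finite_univ_iff] at h1
  exact GS_infinite (Set.toFinite (GS p : Set (PV p)))

theorem GS_not_two (hp : Odd p) : ¬ IsPGroup 2 (GS p) := by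
  intro h
  obtain ⟨n, hn⟩ := h (ga p)
  obtain ⟨m, hm⟩ := GS_isPGroup hp (ga p)
  have h2 : ga p ^ (Nat.gcd (2 ^ n) (p ^ m)) = 1 := pow_gcd_eq_one.mpr ⟨hn, hm⟩
  rw [(Nat.Coprime.pow _ _ (Nat.coprime_two_left.2 hp)).gcd_eq_one, pow_one] at h2
  have := congrArg (fun x : GS p => (x : PV p) [0]) h2
  simp [ga] at this

/-- A section generated by two elements of a directed union is a section of a member. -/
theorem sec_of_directed {W K : Type} [Group W] [Group K] {a b : W}
    (hab : Subgroup.closure ({a, b} : Set W) = ⊤) {S : Set (Subgroup K)}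
    (hS : DirectedOn (· ≤ ·) S) (hK : ∀ g : K, ∃ H ∈ S, g ∈ H) (h : Sec W K) :
    ∃ H ∈ S, Sec W H := by
  obtain ⟨R, s, i⟩ := h
  obtain ⟨x, hx⟩ := s a
  obtain ⟨y, hy⟩ := s b
  obtain ⟨H1, h1, hx1⟩ := hK x
  obtain ⟨H2, h2, hy2⟩ := hK y
  obtain ⟨H, hH, l1, l2⟩ := hS H1 h1 H2 h2
  refine ⟨H, hH, R.comap (H.subtype.prodMap (MonoidHom.id W)), fun w => ?_, fun w hw => i w hw⟩
  have hw : w ∈ Subgroup.closure ({a, b} : Set W) := hab ▸ Subgroup.mem_top w
  induction hw using Subgroup.closure_induction with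
  | mem z hz =>
    rcases hz with rfl | rfl
    · exact ⟨⟨x, l1 hx1⟩, hx⟩
    · exact ⟨⟨y, l2 hy2⟩, hy⟩
  | one => exact ⟨1, R.one_mem⟩
  | mul z z' _ _ h1 h2 =>
    obtain ⟨c, hc⟩ := h1
    obtain ⟨d, hd⟩ := h2
    exact ⟨c * d, R.mul_mem hc hd⟩
  | inv z _ h1 =>
    obtain ⟨c, hc⟩ := h1
    exact ⟨c⁻¹, R.inv_mem hc⟩

theorem sec_of_injective {H K : Type} [Group H] [Group K] (f : H →* K)
    (hf : Function.Injective f) : Sec H K := by
  refine ⟨f.graph.map (MulEquiv.prodComm (M := H) (N := K)).toMonoidHom,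
    fun w => ⟨f w, (w, f w), MonoidHom.mem_graph.2 rfl, rfl⟩, ?_⟩
  rintro w ⟨⟨x, y⟩, h1, h2⟩
  have h3 : f x = y := MonoidHom.mem_graph.1 h1
  obtain ⟨h4, rfl⟩ : y = 1 ∧ x = w := Prod.ext_iff.1 h2
  exact hf (by rw [h3, h4, map_one])

end Pool.Agent.Lib.MP_068a9c_al.Gen
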