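import Mathlib

set_option autoImplicit false

namespace Pool.Agent.Lib.MP_068a9c_al

open Finsupp

section
variable {W : Type} [Group W]

/-- Left translation of an edge of the complete directed graph on `W`. -/
def edgeAct (w : W) (e : W × W) : W × W := (w * e.1, w * e.2)

/-- Left translation of a 1-chain. -/
noncomputable def chainAct (w : W) (f : (W × W) →₀ ZMod 3) : (W × W) →₀ ZMod 3 :=
  Finsupp.mapDomain (edgeAct w) f

/-- Pairing of a 1-chain with a 1-cochain. -/
noncomputable def pairing (φ : W × W → ZMod 3) (f : (W × W) →₀ ZMod 3) : ZMod 3 :=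
  Finsupp.linearCombination (ZMod 3) φ f

theorem edgeAct_injective (w : W) : Function.Injective (edgeAct w) := by
  rintro ⟨a, b⟩ ⟨c, d⟩ h
  simp only [edgeAct, Prod.mk.injEq, mul_right_inj] at h
  exact Prod.ext h.1 h.2

@[simp] theorem chainAct_one (f : (W × W) →₀ ZMod 3) : chainAct (1 : W) f = f := by
  have : edgeAct (1 : W) = id := by
    funext e; simp [edgeAct]
  simp [chainAct, this]

theorem chainAct_mul (v w : W) (f : (W × W) →₀ ZMod 3) :
    chainAct (v * w) f = chainAct v (chainAct w f) := by
  have : edgeAct (v * w) = edgeAct v ∘ edgeAct w := by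
    funext e; simp [edgeAct, mul_assoc]
  simp [chainAct, this, Finsupp.mapDomain_comp]

@[simp] theorem chainAct_add (w : W) (f g : (W × W) →₀ ZMod 3) :
    chainAct w (f + g) = chainAct w f + chainAct w g := by
  simp [chainAct, Finsupp.mapDomain_add]

@[simp] theorem chainAct_zero (w : W) : chainAct w (0 : (W × W) →₀ ZMod 3) = 0 := by
  simp [chainAct]

@[simp] theorem chainAct_neg (w : W) (f : (W × W) →₀ ZMod 3) :
    chainAct w (-f) = -chainAct w f := by
  have := chainAct_add w f (-f)
  rw [add_neg_cancel, chainAct_zero] at this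
  exact (neg_eq_of_add_eq_zero_right this.symm).symm

@[simp] theorem pairing_add (φ : W × W → ZMod 3) (f g : (W × W) →₀ ZMod 3) :
    pairing φ (f + g) = pairing φ f + pairing φ g := by
  simp [pairing]

@[simp] theorem pairing_zero (φ : W × W → ZMod 3) : pairing φ 0 = 0 := by
  simp [pairing]

@[simp] theorem pairing_neg (φ : W × W → ZMod 3) (f : (W × W) →₀ ZMod 3) :
    pairing φ (-f) = -pairing φ f := by
  simp [pairing]

theorem pairing_chainAct (φ : W × W → ZMod 3) (w : W) (f : (W × W) →₀ ZMod 3) :
    pairing φ (chainAct w f) = pairing (φ ∘ edgeAct w) f := by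
  simp [pairing, chainAct, Finsupp.linearCombination_mapDomain]

theorem pairing_add_left (φ ψ : W × W → ZMod 3) (f : (W × W) →₀ ZMod 3) :
    pairing (φ + ψ) f = pairing φ f + pairing ψ f := by
  simp [pairing, Finsupp.linearCombination_apply, Finsupp.sum, mul_add, Finset.sum_add_distrib]

/-- Coboundary of a 0-cochain. -/
def cobd (h : W → ZMod 3) (e : W × W) : ZMod 3 := h e.2 - h e.1

theorem cobd_comp (h : W → ZMod 3) (w : W) :
    cobd h ∘ edgeAct w = cobd (fun x => h (w * x)) := by
  funext e; simp [cobd, edgeAct]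

end

/-- Magnus-type extension of `W`: pairs of a 1-chain mod 3 and a group element `w`
such that the boundary of the chain is `w - 1`. -/
@[ext] structure Mag (W : Type) [Group W] where
  f : (W × W) →₀ ZMod 3
  w : W
  bd : ∀ h : W → ZMod 3, pairing (cobd h) f = h w - h 1

namespace Mag
variable {W : Type} [Group W]

noncomputable instance : One (Mag W) := ⟨⟨0, 1, by intro h; simp⟩⟩

noncomputable instance : Mul (Mag W) := ⟨fun x y => ⟨x.f + chainAct x.w y.f, x.w * y.w, by
  intro h
  rw [pairing_add, pairing_chainAct, cobd_comp, x.bd, y.bd]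
  simp⟩⟩

noncomputable instance : Inv (Mag W) := ⟨fun x => ⟨-chainAct x.w⁻¹ x.f, x.w⁻¹, by
  intro h
  rw [pairing_neg, pairing_chainAct, cobd_comp, x.bd]
  simp⟩⟩

@[simp] theorem one_f : (1 : Mag W).f = 0 := rfl
@[simp] theorem one_w : (1 : Mag W).w = 1 := rfl
@[simp] theorem mul_f (x y : Mag W) : (x * y).f = x.f + chainAct x.w y.f := rfl
@[simp] theorem mul_w (x y : Mag W) : (x * y).w = x.w * y.w := rfl
@[simp] theorem inv_f (x : Mag W) : (x⁻¹).f = -chainAct x.w⁻¹ x.f := rfl
@[simp] theorem inv_w (x : Mag W) : (x⁻¹).w = x.w⁻¹ := rfl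

noncomputable instance : Group (Mag W) :=
  Group.ofLeftAxioms
    (by intro x y z; ext1 <;> simp [chainAct_mul, add_assoc, mul_assoc])
    (by intro x; ext1 <;> simp)
    (by intro x; ext1 <;> simp)

/-- The projection to `W`. -/
noncomputable def proj : Mag W →* W where
  toFun x := x.w
  map_one' := rfl
  map_mul' _ _ := rfl

@[simp] theorem proj_apply (x : Mag W) : proj x = x.w := rfl

theorem proj_surjective : Function.Surjective (proj : Mag W →* W) := by
  intro w
  refine ⟨⟨Finsupp.single (1, w) 1, w, ?_⟩, rfl⟩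
  intro h
  simp [pairing, cobd]

theorem cube_eq_one_of_w {x : Mag W} (hx : x.w = 1) : x ^ 3 = 1 := by
  ext1
  · have : x.f + (x.f + x.f) = 0 := by
      ext e
      simp only [Finsupp.add_apply, Finsupp.coe_zero, Pi.zero_apply]
      generalize x.f e = c
      revert c; decide
    simpa [pow_succ, hx, add_assoc] using this
  · simp [pow_succ, hx]

theorem comm_of_w {x y : Mag W} (hx : x.w = 1) (hy : y.w = 1) : x * y = y * x := by
  ext1
  · simp [hx, hy, add_comm]
  · simp [hx, hy]

theorem isPGroup (hW : IsPGroup 3 W) : IsPGroup 3 (Mag W) := by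
  intro x
  obtain ⟨n, hn⟩ := hW x.w
  refine ⟨n + 1, ?_⟩
  rw [pow_succ, pow_mul]
  apply cube_eq_one_of_w
  have := map_pow proj x (3 ^ n)
  simpa [hn] using this

/-- A height function along the orbits of an element of order three. -/
theorem exists_height {w : W} (h1 : w ≠ 1) (h3 : w ^ 3 = 1) :
    ∃ h : W → ZMod 3, ∀ x, h (w * x) = h x + 1 := by
  classical
  let lg : W → ZMod 3 := fun y => if y = 1 then 0 else if y = w then 1 else 2
  have hww : w * w ≠ 1 := by
    intro h
    apply h1
    have : w ^ 3 = w * (w * w) := by simp [pow_succ, mul_assoc]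
    rw [h, mul_one] at this
    rw [← this, h3]
  have hww' : w * w ≠ w := by
    intro h
    exact h1 (mul_eq_left.mp h)
  have hwww : w * (w * w) = 1 := by
    rw [← h3]; simp [pow_succ, mul_assoc]
  have hz : ∀ y ∈ Subgroup.zpowers w, y = 1 ∨ y = w ∨ y = w * w := by
    intro y hy
    have hfin : IsOfFinOrder w := isOfFinOrder_iff_pow_eq_one.mpr ⟨3, by norm_num, h3⟩
    obtain ⟨n, rfl⟩ := (hfin.mem_powers_iff_mem_zpowers).mpr hy
    show w ^ n = 1 ∨ w ^ n = w ∨ w ^ n = w * w
    have hn : w ^ n = w ^ (n % 3) := by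
      conv_lhs => rw [← Nat.div_add_mod n 3, pow_add, pow_mul, h3, one_pow, one_mul]
    rw [hn]
    have : n % 3 = 0 ∨ n % 3 = 1 ∨ n % 3 = 2 := by omega
    rcases this with h | h | h <;> rw [h] <;> simp [pow_succ]
  have hlg : ∀ y ∈ Subgroup.zpowers w, lg (w * y) = lg y + 1 := by
    intro y hy
    rcases hz y hy with rfl | rfl | rfl
    · simp [lg, h1]
    · simp only [lg, hww, hww', h1, if_true, if_false]; decide
    · simp only [lg, hwww, hww, hww', if_true, if_false]; decide
  let s : Setoid W := QuotientGroup.rightRel (Subgroup.zpowers w)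
  let r : W → W := fun x => (Quotient.mk s x).out
  have hr : ∀ x, x * (r x)⁻¹ ∈ Subgroup.zpowers w := by
    intro x
    have : s (r x) x := Quotient.mk_out (s := s) x
    exact QuotientGroup.rightRel_apply.mp this
  have hr' : ∀ x, r (w * x) = r x := by
    intro x
    have : s x (w * x) := QuotientGroup.rightRel_apply.mpr (by simp)
    simp only [r]
    rw [Quotient.sound this]
  refine ⟨fun x => lg (x * (r x)⁻¹), fun x => ?_⟩
  show lg (w * x * (r (w * x))⁻¹) = lg (x * (r x)⁻¹) + 1
  rw [hr', mul_assoc, hlg _ (hr x)]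

/-- Every element of order dividing three lies in the kernel of the projection. -/
theorem w_eq_one_of_cube {x : Mag W} (hx : x ^ 3 = 1) : x.w = 1 := by
  classical
  by_contra h1
  have h3 : x.w ^ 3 = 1 := by
    have := map_pow proj x 3
    rw [hx] at this
    simpa using this.symm
  obtain ⟨h, hh⟩ := exists_height h1 h3
  have hf : x.f + chainAct x.w x.f + chainAct (x.w * x.w) x.f = 0 := by
    have := congrArg Mag.f hx
    simpa [pow_succ] using this
  let ψ : W × W → ZMod 3 := fun e => if h e.1 = 0 then h e.2 - h e.1 else 0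
  have hψ : ψ + ψ ∘ edgeAct x.w + ψ ∘ edgeAct (x.w * x.w) = cobd h := by
    funext e
    simp only [Pi.add_apply, Function.comp, ψ, edgeAct, cobd, mul_assoc, hh]
    generalize h e.1 = a
    generalize h e.2 = b
    revert a b; decide
  have h0 := congrArg (pairing ψ) hf
  rw [pairing_add, pairing_add, pairing_chainAct, pairing_chainAct, ← pairing_add_left,
    ← pairing_add_left, hψ, x.bd, pairing_zero] at h0
  have := hh 1
  rw [mul_one] at this
  rw [this] at h0
  revert h0
  generalize h 1 = a
  revert a; decide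

/-- A finitely generated subgroup with finite image in `W` is finite. -/
theorem finite_of_fg (K : Subgroup (Mag W)) (hK : K.FG)
    (hfin : (proj '' (K : Set (Mag W))).Finite) : (K : Set (Mag W)).Finite := by
  have : Group.FG K := (Group.fg_iff_subgroup_fg K).mpr hK
  let π : K →* W := proj.comp K.subtype
  have hr : Finite π.range := by
    have : (π.range : Set W) ⊆ proj '' (K : Set (Mag W)) := by
      rintro _ ⟨k, rfl⟩
      exact ⟨k, k.2, rfl⟩
    exact (hfin.subset this).to_subtype
  have hker : Finite π.ker := by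
    have : π.ker.FiniteIndex := Subgroup.finiteIndex_ker π
    have hfg : Group.FG π.ker := Subgroup.fg_of_index_ne_zero _
    let _ : CommGroup π.ker :=
      { (inferInstance : Group π.ker) with
        mul_comm := fun a b => Subtype.ext (Subtype.ext (comm_of_w a.2 b.2)) }
    refine CommGroup.finite_of_fg_isMulTorsion π.ker ?_
    intro a
    refine isOfFinOrder_iff_pow_eq_one.mpr ⟨3, by norm_num, ?_⟩
    exact Subtype.ext (Subtype.ext (cube_eq_one_of_w a.2))
  have : Finite K := π.finite_iff_finite_ker_range.mpr ⟨hker, hr⟩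
  exact Set.toFinite _

/-- The normaliser of a nontrivial finite subgroup has finite image in `W`. -/
theorem normalizer_image_finite (hW : IsPGroup 3 W) (H : Subgroup (Mag W))
    (hH : (H : Set (Mag W)).Finite) (hne : H ≠ ⊥) :
    (proj '' ((Subgroup.normalizer (H : Set (Mag W)) : Subgroup (Mag W)) :
      Set (Mag W))).Finite := by
  classical
  have hz : ∃ z ∈ H, z ≠ 1 ∧ z ^ 3 = 1 := by
    obtain ⟨z0, hz0, hz1⟩ : ∃ z ∈ H, z ≠ 1 := by
      by_contra hcon
      apply hne
      rw [eq_bot_iff]
      intro z hz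
      by_contra hz1
      exact hcon ⟨z, hz, hz1⟩
    obtain ⟨n, hn⟩ := isPGroup hW z0
    induction n generalizing z0 with
    | zero => exact absurd (by simpa using hn) hz1
    | succ n ih =>
      by_cases h3 : z0 ^ 3 = 1
      · exact ⟨z0, hz0, hz1, h3⟩
      · refine ih (z0 ^ 3) (H.pow_mem hz0 3) h3 ?_
        rw [← pow_mul, ← pow_succ']
        exact hn
  obtain ⟨z, hzH, hz1, hz3⟩ := hz
  have hzw : z.w = 1 := w_eq_one_of_cube hz3
  have hzf : z.f ≠ 0 := by
    intro h0
    exact hz1 (Mag.ext h0 hzw)
  obtain ⟨e0, he0⟩ := Finsupp.support_nonempty_iff.mpr hzf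
  let U : Set (W × W) := ⋃ y ∈ (H : Set (Mag W)), (y.f.support : Set (W × W))
  have hU : U.Finite := hH.biUnion (fun y _ => y.f.support.finite_toSet)
  have hinj : Function.Injective (fun w : W => edgeAct w e0) := by
    intro a b hab
    have := congrArg Prod.fst hab
    simpa [edgeAct] using this
  refine (hU.preimage hinj.injOn).subset ?_
  rintro _ ⟨n, hn, rfl⟩
  have hc : n * z * n⁻¹ ∈ H := (hn z).mp hzH
  have hcf : (n * z * n⁻¹).f = chainAct n.w z.f := by
    simp [hzw, ← chainAct_mul]
  refine Set.mem_biUnion hc ?_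
  rw [hcf]
  simp only [Finset.mem_coe, chainAct, proj_apply]
  rw [Finsupp.mapDomain_support_of_injective (edgeAct_injective _)]
  exact Finset.mem_image_of_mem _ he0

/-- The Magnus-type extension of any 3-group is conjugacy biprimitively finite. -/
theorem shunkov (hW : IsPGroup 3 W) (H : Subgroup (Mag W)) (hH : (H : Set (Mag W)).Finite)
    (a : Mag W) (ha : a ∈ Subgroup.normalizer (H : Set (Mag W)))
    (b : Mag W) (hb : b ∈ Subgroup.normalizer (H : Set (Mag W)))
    (p : ℕ) (hp : p.Prime) (haH : a ∉ H) (hap : a ^ p ∈ H)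
    (hc : ∃ c ∈ Subgroup.normalizer (H : Set (Mag W)), c * a * c⁻¹ * b⁻¹ ∈ H) :
    ((Subgroup.closure (insert a (insert b (H : Set (Mag W))))) : Set (Mag W)).Finite := by
  have hfg : (Subgroup.closure (insert a (insert b (H : Set (Mag W))))).FG :=
    (Subgroup.fg_iff _).mpr ⟨_, rfl, (hH.insert b).insert a⟩
  refine finite_of_fg _ hfg ?_
  by_cases hne : H = ⊥
  · subst hne
    obtain ⟨c, -, hc⟩ := hc
    have ha1 : a ≠ 1 := fun h => haH (h ▸ Subgroup.one_mem _)
    have hap' : a ^ p = 1 := hap
    have hp3 : p = 3 := by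
      have : Fact p.Prime := ⟨hp⟩
      have ho : orderOf a = p := orderOf_eq_prime hap' ha1
      obtain ⟨n, hn⟩ := isPGroup hW a
      have hd : p ∣ 3 ^ n := ho ▸ orderOf_dvd_of_pow_eq_one hn
      exact (Nat.prime_dvd_prime_iff_eq hp Nat.prime_three).mp (hp.dvd_of_dvd_pow hd)
    subst hp3
    have haw : a.w = 1 := w_eq_one_of_cube hap'
    have hbw : b.w = 1 := by
      have h1 : c * a * c⁻¹ * b⁻¹ = 1 := hc
      have := congrArg Mag.w h1
      simpa [haw] using this
    have hle : Subgroup.closure (insert a (insert b ((⊥ : Subgroup (Mag W)) : Set (Mag W)))) ≤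
        (proj : Mag W →* W).ker := by
      rw [Subgroup.closure_le]
      rintro x (rfl | rfl | hx)
      · exact haw
      · exact hbw
      · have : x = 1 := hx
        subst this
        exact Subgroup.one_mem _
    refine (Set.finite_singleton (1 : W)).subset ?_
    rintro _ ⟨x, hx, rfl⟩
    exact hle hx
  · refine (normalizer_image_finite hW H hH hne).subset (Set.image_mono ?_)
    have hle : Subgroup.closure (insert a (insert b (H : Set (Mag W)))) ≤
        Subgroup.normalizer (H : Set (Mag W)) := by
      rw [Subgroup.closure_le]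
      rintro x (rfl | rfl | hx)
      · exact ha
      · exact hb
      · exact Subgroup.le_normalizer hx
    exact hle

end Mag

end Pool.Agent.Lib.MP_068a9c_al
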