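import Mathlib

set_option autoImplicit false

namespace Pool.Agent.Lib.MP_068a9c_al

/-- `W` is a section (a quotient of a subgroup) of `K`, encoded by the graph relation. -/
def Sec (W K : Type) [Group W] [Group K] : Prop :=
  ∃ R : Subgroup (K × W), (∀ w : W, ∃ k : K, (k, w) ∈ R) ∧ (∀ w : W, ((1 : K), w) ∈ R → w = 1)

theorem Sec.trans {U V K : Type} [Group U] [Group V] [Group K]
    (h1 : Sec U V) (h2 : Sec V K) : Sec U K := by
  obtain ⟨R1, s1, i1⟩ := h1
  obtain ⟨R2, s2, i2⟩ := h2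
  refine ⟨{ carrier := {x | ∃ v : V, (x.1, v) ∈ R2 ∧ (v, x.2) ∈ R1}
            one_mem' := ⟨1, R2.one_mem, R1.one_mem⟩
            mul_mem' := ?_
            inv_mem' := ?_ }, ?_, ?_⟩
  · rintro x y ⟨v, hv, hv'⟩ ⟨v', hw, hw'⟩
    exact ⟨v * v', R2.mul_mem hv hw, R1.mul_mem hv' hw'⟩
  · rintro x ⟨v, hv, hv'⟩
    exact ⟨v⁻¹, R2.inv_mem hv, R1.inv_mem hv'⟩
  · intro u
    obtain ⟨v, hv⟩ := s1 u
    obtain ⟨k, hk⟩ := s2 v
    exact ⟨k, v, hk, hv⟩
  · rintro u ⟨v, hv, hv'⟩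
    have : v = 1 := i2 v hv
    subst this
    exact i1 u hv'

theorem Sec.of_surjective {W K : Type} [Group W] [Group K] (f : K →* W)
    (hf : Function.Surjective f) : Sec W K := by
  refine ⟨f.graph, ?_, ?_⟩
  · intro w
    obtain ⟨k, rfl⟩ := hf w
    exact ⟨k, (MonoidHom.mem_graph).mpr rfl⟩
  · intro w hw
    have := (MonoidHom.mem_graph).mp hw
    simpa using this.symm

theorem Sec.of_mulEquiv {W K L : Type} [Group W] [Group K] [Group L] (e : K ≃* L)
    (h : Sec W L) : Sec W K :=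
  h.trans (Sec.of_surjective e.toMonoidHom e.surjective)

theorem Sec.isPGroup {W K : Type} [Group W] [Group K] {p : ℕ} (h : Sec W K)
    (hK : IsPGroup p K) : IsPGroup p W := by
  obtain ⟨R, s, i⟩ := h
  intro w
  obtain ⟨k, hk⟩ := s w
  obtain ⟨n, hn⟩ := hK k
  refine ⟨n, i _ ?_⟩
  have := R.pow_mem hk (p ^ n)
  simpa [hn] using this

theorem Sec.binFin {W K : Type} [Group W] [Group K] (h : Sec W K)
    (hK : ∀ x y : K, ((Subgroup.closure ({x, y} : Set K)) : Set K).Finite) :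
    ∀ x y : W, ((Subgroup.closure ({x, y} : Set W)) : Set W).Finite := by
  obtain ⟨R, s, i⟩ := h
  intro x y
  obtain ⟨a, ha⟩ := s x
  obtain ⟨b, hb⟩ := s y
  have key : ∀ z ∈ Subgroup.closure ({x, y} : Set W),
      ∃ c ∈ Subgroup.closure ({a, b} : Set K), (c, z) ∈ R := by
    intro z hz
    induction hz using Subgroup.closure_induction with
    | mem z hz =>
      rcases hz with rfl | rfl
      · exact ⟨a, Subgroup.subset_closure (by simp), ha⟩
      · exact ⟨b, Subgroup.subset_closure (by simp), hb⟩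
    | one => exact ⟨1, one_mem _, R.one_mem⟩
    | mul z z' _ _ h1 h2 =>
      obtain ⟨c, hc, hc'⟩ := h1
      obtain ⟨d, hd, hd'⟩ := h2
      exact ⟨c * d, mul_mem hc hd, R.mul_mem hc' hd'⟩
    | inv z _ h1 =>
      obtain ⟨c, hc, hc'⟩ := h1
      exact ⟨c⁻¹, inv_mem hc, R.inv_mem hc'⟩
  have huniq : ∀ c : K, ({z : W | (c, z) ∈ R}).Subsingleton := by
    intro c z hz z' hz'
    have h1 : ((c, z) * (c, z')⁻¹ : K × W) ∈ R := R.mul_mem hz (R.inv_mem hz')
    have h2 : ((1 : K), z * z'⁻¹) ∈ R := by simpa using h1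
    exact mul_inv_eq_one.mp (i _ h2)
  refine ((hK a b).biUnion (t := fun c => {z : W | (c, z) ∈ R})
    (fun c _ => (huniq c).finite)).subset ?_
  intro z hz
  obtain ⟨c, hc, hc'⟩ := key z hz
  exact Set.mem_biUnion hc hc'

/-- If every nontrivial normal subgroup of `W` has `W` as a section, then a section `W` of an
extension is a section of the kernel or of the quotient. -/
theorem Sec.ext_cases {W K : Type} [Group W] [Group K]
    (hW : ∀ M : Subgroup W, M.Normal → M ≠ ⊥ → Sec W M)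
    (N : Subgroup K) [hN : N.Normal] (h : Sec W K) : Sec W N ∨ Sec W (K ⧸ N) := by
  obtain ⟨R, s, i⟩ := h
  let M : Subgroup W :=
    { carrier := {w | ∃ n ∈ N, (n, w) ∈ R}
      one_mem' := ⟨1, N.one_mem, R.one_mem⟩
      mul_mem' := by
        rintro x y ⟨n, hn, hn'⟩ ⟨m, hm, hm'⟩
        exact ⟨n * m, N.mul_mem hn hm, R.mul_mem hn' hm'⟩
      inv_mem' := by
        rintro x ⟨n, hn, hn'⟩
        exact ⟨n⁻¹, N.inv_mem hn, R.inv_mem hn'⟩ }
  have hM : M.Normal := by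
    constructor
    rintro x ⟨n, hn, hn'⟩ g
    obtain ⟨k, hk⟩ := s g
    exact ⟨k * n * k⁻¹, hN.conj_mem n hn k, R.mul_mem (R.mul_mem hk hn') (R.inv_mem hk)⟩
  by_cases hb : M = ⊥
  · right
    refine ⟨R.map ((QuotientGroup.mk' N).prodMap (MonoidHom.id W)), ?_, ?_⟩
    · intro w
      obtain ⟨k, hk⟩ := s w
      exact ⟨QuotientGroup.mk' N k, (k, w), hk, rfl⟩
    · rintro w ⟨⟨k, w'⟩, hk, he⟩
      have h1 : QuotientGroup.mk' N k = 1 := congrArg Prod.fst he
      have h2 : w' = w := congrArg Prod.snd he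
      subst h2
      have h3 : k ∈ N := (QuotientGroup.eq_one_iff k).mp h1
      have h4 : w' ∈ M := ⟨k, h3, hk⟩
      rw [hb] at h4
      exact h4
  · left
    refine (hW M hM hb).trans ?_
    refine ⟨R.comap (N.subtype.prodMap M.subtype), ?_, ?_⟩
    · rintro ⟨w, n, hn, hn'⟩
      exact ⟨⟨n, hn⟩, hn'⟩
    · intro w hw
      exact Subtype.ext (i _ hw)

end Pool.Agent.Lib.MP_068a9c_al
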