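import Mathlib
import Pool.Agent.Lib.MP_068a9c_al.Section

set_option autoImplicit false

namespace Pool.Agent.Lib.MP_068a9c_al

/-- Vertices of the ternary rooted tree. -/
abbrev Vx : Type := List (ZMod 3)

/-- Permutations of the vertices. -/
abbrev PV : Type := Equiv.Perm Vx

/-- Act below the first level by the given permutations. -/
def nodeFun (g : ZMod 3 → Vx → Vx) : Vx → Vx
  | [] => []
  | i :: v => i :: g i v

/-- The permutation acting below the vertex `i` by `g i`. -/
def node (g : ZMod 3 → PV) : PV where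
  toFun := nodeFun (fun i => g i)
  invFun := nodeFun (fun i => (g i).symm)
  left_inv := by rintro (_ | ⟨i, v⟩) <;> simp [nodeFun]
  right_inv := by rintro (_ | ⟨i, v⟩) <;> simp [nodeFun]

@[simp] theorem node_nil (g : ZMod 3 → PV) : node g [] = [] := rfl
@[simp] theorem node_cons (g : ZMod 3 → PV) (i : ZMod 3) (v : Vx) :
    node g (i :: v) = i :: g i v := rfl

/-- Shift of the first letter. -/
def rotFun (k : ZMod 3) : Vx → Vx
  | [] => []
  | i :: v => (i + k) :: v

/-- The rooted rotation by `k`. -/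
def rot (k : ZMod 3) : PV where
  toFun := rotFun k
  invFun := rotFun (-k)
  left_inv := by rintro (_ | ⟨i, v⟩) <;> simp [rotFun]
  right_inv := by rintro (_ | ⟨i, v⟩) <;> simp [rotFun]

@[simp] theorem rot_nil (k : ZMod 3) : rot k [] = [] := rfl
@[simp] theorem rot_cons (k i : ZMod 3) (v : Vx) : rot k (i :: v) = (i + k) :: v := rfl

theorem rot_zero : rot 0 = 1 := by
  ext1 v; rcases v with _ | ⟨i, v⟩ <;> simp

theorem rot_add (k l : ZMod 3) : rot (k + l) = rot k * rot l := by
  ext1 v; rcases v with _ | ⟨i, v⟩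
  · simp
  · simp [add_comm, add_left_comm]

theorem rot_inv (k : ZMod 3) : (rot k)⁻¹ = rot (-k) := by
  rw [inv_eq_iff_mul_eq_one, ← rot_add, add_neg_cancel, rot_zero]

theorem node_one : node 1 = 1 := by
  ext1 v; rcases v with _ | ⟨i, v⟩ <;> simp

theorem node_mul (g h : ZMod 3 → PV) : node (g * h) = node g * node h := by
  ext1 v; rcases v with _ | ⟨i, v⟩ <;> simp

theorem node_inv (g : ZMod 3 → PV) : (node g)⁻¹ = node g⁻¹ := by
  rw [inv_eq_iff_mul_eq_one, ← node_mul, mul_inv_cancel, node_one]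

theorem node_pow (g : ZMod 3 → PV) (n : ℕ) : node g ^ n = node (g ^ n) := by
  induction n with
  | zero => simp [node_one]
  | succ n ih => rw [pow_succ, pow_succ, node_mul, ih]

theorem node_injective : Function.Injective node := by
  intro g h hgh
  funext i
  ext1 v
  have := congrArg (fun x : PV => x (i :: v)) hgh
  simpa using this

theorem node_mul_rot (g : ZMod 3 → PV) (k : ZMod 3) :
    node g * rot k = rot k * node (fun i => g (i + k)) := by
  ext1 v; rcases v with _ | ⟨i, v⟩ <;> simp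

theorem rn_mul (k l : ZMod 3) (g h : ZMod 3 → PV) :
    (rot k * node g) * (rot l * node h) = rot (k + l) * node (fun i => g (i + l) * h i) := by
  ext1 v; rcases v with _ | ⟨i, v⟩
  · simp
  · simp [add_comm, add_left_comm]

theorem rn_inv (k : ZMod 3) (g : ZMod 3 → PV) :
    (rot k * node g)⁻¹ = rot (-k) * node (fun i => (g (i - k))⁻¹) := by
  rw [inv_eq_iff_mul_eq_one]
  ext1 v; rcases v with _ | ⟨i, v⟩
  · simp
  · simp [sub_eq_add_neg]

/-- Torsion of 3-power order. -/
def Tor (x : PV) : Prop := ∃ m : ℕ, x ^ (3 ^ m) = 1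

theorem Tor.mono {x : PV} {m n : ℕ} (h : x ^ (3 ^ m) = 1) (hmn : m ≤ n) : x ^ (3 ^ n) = 1 := by
  obtain ⟨d, rfl⟩ := Nat.exists_eq_add_of_le hmn
  rw [pow_add, pow_mul, h, one_pow]

theorem tor_node {g : ZMod 3 → PV} (h : ∀ i, Tor (g i)) : Tor (node g) := by
  choose m hm using h
  refine ⟨∑ i, m i, ?_⟩
  rw [node_pow, ← node_one]
  congr 1
  funext i
  exact Tor.mono (hm i) (Finset.single_le_sum (f := m) (fun _ _ => Nat.zero_le _)
    (Finset.mem_univ i))

theorem tor_of_cube {x : PV} (h : Tor (x ^ 3)) : Tor x := by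
  obtain ⟨m, hm⟩ := h
  refine ⟨m + 1, ?_⟩
  rw [pow_succ', pow_mul, hm]

theorem rn_cube (k : ZMod 3) (g : ZMod 3 → PV) :
    (rot k * node g) ^ 3 = node (fun i => g (i + k + k) * g (i + k) * g i) := by
  ext1 v; rcases v with _ | ⟨i, v⟩
  · simp [pow_succ]
  · have : i + k + k + k = i := by revert i k; decide
    simp [pow_succ, this]

/-- The directed generator of the Gupta-Sidki 3-group, with parameter `e` (1 or -1). -/
def tFun (e : ZMod 3) : Vx → Vx
  | [] => []
  | i :: v => i :: (if i = 0 then rotFun e v else if i = 1 then rotFun (-e) v else tFun e v)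

theorem tFun_add (e d : ZMod 3) (v : Vx) : tFun e (tFun d v) = tFun (e + d) v := by
  induction v with
  | nil => rfl
  | cons i v ih =>
    simp only [tFun]
    split_ifs with h0 h1
    · congr 1
      exact congrArg (fun x : PV => x v) (rot_add e d).symm
    · congr 1
      rw [neg_add]
      exact congrArg (fun x : PV => x v) (rot_add (-e) (-d)).symm
    · rw [ih]

theorem tFun_zero (v : Vx) : tFun 0 v = v := by
  induction v with
  | nil => rfl
  | cons i v ih =>
    simp only [tFun, neg_zero]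
    have : rotFun 0 v = v := congrArg (fun x : PV => x v) rot_zero
    split_ifs <;> simp [this, ih]

/-- The directed generator as a permutation. -/
def tt (e : ZMod 3) : PV where
  toFun := tFun e
  invFun := tFun (-e)
  left_inv := by intro v; rw [tFun_add, neg_add_cancel, tFun_zero]
  right_inv := by intro v; rw [tFun_add, add_neg_cancel, tFun_zero]

theorem tt_add (e d : ZMod 3) : tt (e + d) = tt e * tt d := by
  ext1 v; exact (tFun_add e d v).symm

theorem tt_zero : tt 0 = 1 := by
  ext1 v; exact tFun_zero v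

/-- First-level sections of the directed generator. -/
def tau (i : ZMod 3) : PV := if i = 0 then rot 1 else if i = 1 then rot (-1) else tt 1

theorem tt_eq_node : tt 1 = node tau := by
  ext1 v; rcases v with _ | ⟨i, v⟩
  · rfl
  · rw [node_cons]
    show tFun 1 (i :: v) = _
    simp only [tFun, tau]
    split_ifs <;> rfl

theorem tor_rot (k : ZMod 3) : Tor (rot k) := by
  refine ⟨1, ?_⟩
  have : k + k + k = 0 := by revert k; decide
  simp only [pow_succ, pow_zero, one_mul, ← rot_add]
  rw [this, rot_zero]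

theorem tor_tt (k : ZMod 3) : Tor (tt k) := by
  refine ⟨1, ?_⟩
  have : k + k + k = 0 := by revert k; decide
  simp only [pow_succ, pow_zero, one_mul, ← tt_add]
  rw [this, tt_zero]

/-- Positive words: `false` is the rotation, `true` the directed generator. -/
def ev : List Bool → PV
  | [] => 1
  | false :: u => rot 1 * ev u
  | true :: u => tt 1 * ev u

/-- Rotation exponent of a word. -/
def ac : List Bool → ZMod 3
  | [] => 0
  | false :: u => 1 + ac u
  | true :: u => ac u

/-- Number of directed letters of a word. -/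
def nt : List Bool → ℕ
  | [] => 0
  | false :: u => nt u
  | true :: u => nt u + 1

/-- Words for the sections of the directed generator. -/
def tauW (i : ZMod 3) : List Bool :=
  if i = 0 then [false] else if i = 1 then [false, false] else [true]

/-- First-level sections of a word. -/
def sec : List Bool → ZMod 3 → List Bool
  | [], _ => []
  | false :: u, i => sec u i
  | true :: u, i => tauW (i + ac u) ++ sec u i

theorem ev_append (u v : List Bool) : ev (u ++ v) = ev u * ev v := by
  induction u with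
  | nil => simp [ev]
  | cons c u ih => cases c <;> simp [ev, ih, mul_assoc]

theorem ac_append (u v : List Bool) : ac (u ++ v) = ac u + ac v := by
  induction u with
  | nil => simp [ac]
  | cons c u ih => cases c <;> simp [ac, ih, add_assoc]

theorem nt_append (u v : List Bool) : nt (u ++ v) = nt u + nt v := by
  induction u with
  | nil => simp [nt]
  | cons c u ih => cases c <;> simp [nt, ih]; omega

theorem ev_tauW (i : ZMod 3) : ev (tauW i) = tau i := by
  unfold tauW tau
  split_ifs
  · simp [ev]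
  · simp only [ev, mul_one, ← rot_add]
    rfl
  · simp [ev]

theorem ev_eq (u : List Bool) : ev u = rot (ac u) * node (fun i => ev (sec u i)) := by
  induction u with
  | nil =>
    simp only [ev, ac, sec, rot_zero, one_mul]
    exact node_one.symm
  | cons c u ih =>
    cases c
    · simp only [ev, ac, sec]
      rw [rot_add, mul_assoc, ← ih]
    · simp only [ev, ac, sec, ev_append, ev_tauW]
      conv_lhs => rw [ih, tt_eq_node]
      rw [← mul_assoc, node_mul_rot, mul_assoc, ← node_mul]
      rfl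

theorem nt_tauW (j : ZMod 3) : nt (tauW j) ≤ 1 := by
  revert j; decide

theorem nt_sec_le (u : List Bool) (i : ZMod 3) : nt (sec u i) ≤ nt u := by
  induction u with
  | nil => simp [sec]
  | cons c u ih =>
    cases c
    · simpa [sec, nt] using ih
    · have := nt_tauW (i + ac u)
      simp only [sec, nt, nt_append]; omega

theorem ev_sec_of_eq (u : List Bool) (i : ZMod 3) (h : nt (sec u i) = nt u) :
    ∃ e, ev (sec u i) = tt e := by
  induction u with
  | nil => exact ⟨0, by simp [sec, ev, tt_zero]⟩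
  | cons c u ih =>
    cases c
    · exact ih (by simpa [sec, nt] using h)
    · have h1 := nt_tauW (i + ac u)
      have h2 := nt_sec_le u i
      simp only [sec, nt, nt_append] at h
      obtain ⟨e, he⟩ := ih (by omega)
      have h3 : nt (tauW (i + ac u)) = 1 := by omega
      have h4 : ∀ j : ZMod 3, nt (tauW j) = 1 → tauW j = [true] := by decide
      refine ⟨1 + e, ?_⟩
      simp only [sec, ev_append, h4 _ h3, he, ev, mul_one, tt_add]

theorem ev_of_nt_zero (u : List Bool) (h : nt u = 0) : ev u = rot (ac u) := by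
  induction u with
  | nil => simp [ev, ac, rot_zero]
  | cons c u ih =>
    cases c
    · simp only [ev, ac, rot_add]
      rw [ih (by simpa [nt] using h)]
    · simp [nt] at h

theorem sum_nt_sec (u : List Bool) (i k : ZMod 3) (hk : k ≠ 0) :
    nt (sec u (i + k + k)) + nt (sec u (i + k)) + nt (sec u i) = nt u := by
  induction u with
  | nil => simp [sec, nt]
  | cons c u ih =>
    cases c
    · simpa [sec, nt] using ih
    · have : ∀ i k j : ZMod 3, k ≠ 0 →
          nt (tauW (i + k + k + j)) + nt (tauW (i + k + j)) + nt (tauW (i + j)) = 1 := by decide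
      have := this i k (ac u) hk
      simp only [sec, nt, nt_append]; omega

theorem sum_ac_sec (u : List Bool) (i k : ZMod 3) (hk : k ≠ 0) :
    ac (sec u (i + k + k)) + ac (sec u (i + k)) + ac (sec u i) = 0 := by
  induction u with
  | nil => simp [sec, ac]
  | cons c u ih =>
    cases c
    · simpa [sec, ac] using ih
    · have : ∀ i k j : ZMod 3, k ≠ 0 →
          ac (tauW (i + k + k + j)) + ac (tauW (i + k + j)) + ac (tauW (i + j)) = 0 := by decide
      have := this i k (ac u) hk
      simp only [sec, ac_append]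
      linear_combination this + ih

theorem tor_ev_aux (n : ℕ) : ∀ u : List Bool, nt u < n → Tor (ev u) := by
  induction n with
  | zero => intro u hu; omega
  | succ n ih =>
    have h0 : ∀ u : List Bool, nt u < n + 1 → ac u = 0 → Tor (ev u) := by
      intro u hu ha
      rw [ev_eq, ha, rot_zero, one_mul]
      refine tor_node fun i => ?_
      have h1 := nt_sec_le u i
      by_cases h2 : nt (sec u i) = nt u
      · obtain ⟨e, he⟩ := ev_sec_of_eq u i h2
        rw [he]; exact tor_tt e
      · exact ih _ (by omega)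
    intro u hu
    by_cases ha : ac u = 0
    · exact h0 u hu ha
    · apply tor_of_cube
      rw [ev_eq, rn_cube]
      refine tor_node fun i => ?_
      rw [← ev_append, ← ev_append]
      refine h0 _ ?_ ?_
      · rw [nt_append, nt_append, sum_nt_sec u i _ ha]; exact hu
      · rw [ac_append, ac_append, sum_ac_sec u i _ ha]

theorem tor_ev (u : List Bool) : Tor (ev u) := tor_ev_aux _ u (Nat.lt_succ_self _)

/-- The Gupta-Sidki 3-group. -/
def GS : Subgroup PV := Subgroup.closure {rot 1, tt 1}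

theorem ev_mem_GS (u : List Bool) : ev u ∈ GS := by
  induction u with
  | nil => exact GS.one_mem
  | cons c u ih =>
    cases c
    · exact GS.mul_mem (Subgroup.subset_closure (by simp)) ih
    · exact GS.mul_mem (Subgroup.subset_closure (by simp)) ih

theorem exists_word {x : PV} (hx : x ∈ GS) : ∃ u, ev u = x := by
  induction hx using Subgroup.closure_induction with
  | mem z hz =>
    rcases hz with rfl | rfl
    · exact ⟨[false], by simp [ev]⟩
    · exact ⟨[true], by simp [ev]⟩
  | one => exact ⟨[], rfl⟩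
  | mul z z' _ _ h1 h2 =>
    obtain ⟨u, rfl⟩ := h1
    obtain ⟨v, rfl⟩ := h2
    exact ⟨u ++ v, ev_append u v⟩
  | inv z _ h1 =>
    obtain ⟨u, rfl⟩ := h1
    obtain ⟨m, hm⟩ := tor_ev u
    have hp : ∀ j : ℕ, ∃ v, ev v = ev u ^ j := by
      intro j
      induction j with
      | zero => exact ⟨[], by simp [ev]⟩
      | succ j ih =>
        obtain ⟨v, hv⟩ := ih
        exact ⟨v ++ u, by rw [ev_append, hv, pow_succ]⟩
    obtain ⟨v, hv⟩ := hp (3 ^ m - 1)
    refine ⟨v, ?_⟩
    rw [hv, eq_inv_iff_mul_eq_one, ← pow_succ, Nat.sub_add_cancel (Nat.one_le_pow _ _ (by norm_num))]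
    exact hm

theorem tor_of_mem_GS {x : PV} (hx : x ∈ GS) : Tor x := by
  obtain ⟨u, rfl⟩ := exists_word hx
  exact tor_ev u

theorem rot_mem_GS (k : ZMod 3) : rot k ∈ GS := by
  have h1 : rot 1 ∈ GS := Subgroup.subset_closure (by simp)
  have : k = 0 ∨ k = 1 ∨ k = 1 + 1 := by revert k; decide
  rcases this with rfl | rfl | rfl
  · rw [rot_zero]; exact GS.one_mem
  · exact h1
  · rw [rot_add]; exact GS.mul_mem h1 h1

theorem lift_GS {y : PV} (hy : y ∈ GS) : ∃ x ∈ GS, ∃ g : ZMod 3 → PV, x = node g ∧ g 2 = y := by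
  have ht : tt 1 ∈ GS := Subgroup.subset_closure (by simp)
  induction hy using Subgroup.closure_induction with
  | mem z hz =>
    rcases hz with rfl | rfl
    · refine ⟨rot (-1) * (tt 1 * rot 1), GS.mul_mem (rot_mem_GS _) (GS.mul_mem ht (rot_mem_GS _)),
        fun i => tau (i + 1), ?_, ?_⟩
      · rw [tt_eq_node, node_mul_rot, ← mul_assoc, ← rot_add, neg_add_cancel, rot_zero, one_mul]
      · have : (2 : ZMod 3) + 1 = 0 := by decide
        simp [this, tau]
    · refine ⟨tt 1, ht, tau, tt_eq_node, ?_⟩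
      have h0 : (2 : ZMod 3) ≠ 0 := by decide
      have h1 : (2 : ZMod 3) ≠ 1 := by decide
      simp [tau, h0, h1]
  | one => exact ⟨1, GS.one_mem, 1, node_one.symm, rfl⟩
  | mul z z' _ _ h1 h2 =>
    obtain ⟨x, hx, g, rfl, rfl⟩ := h1
    obtain ⟨x', hx', g', rfl, rfl⟩ := h2
    exact ⟨_, GS.mul_mem hx hx', g * g', (node_mul g g').symm, rfl⟩
  | inv z _ h1 =>
    obtain ⟨x, hx, g, rfl, rfl⟩ := h1
    exact ⟨_, GS.inv_mem hx, g⁻¹, node_inv g, rfl⟩

theorem GS_infinite : (GS : Set PV).Infinite := by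
  have key : ∀ n : ℕ, ∃ x ∈ GS, ∀ m : ℕ,
      x (List.replicate m 2) = List.replicate m 2 ↔ m ≤ n := by
    intro n
    induction n with
    | zero =>
      refine ⟨rot 1, rot_mem_GS 1, fun m => ?_⟩
      cases m with
      | zero => simp
      | succ m => simp [List.replicate_succ]
    | succ n ih =>
      obtain ⟨y, hy, hy'⟩ := ih
      obtain ⟨x, hx, g, rfl, rfl⟩ := lift_GS hy
      refine ⟨_, hx, fun m => ?_⟩
      cases m with
      | zero => simp
      | succ m => simp [List.replicate_succ, hy']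
  choose x hx hx' using key
  refine Set.infinite_of_injective_forall_mem (f := x) ?_ hx
  intro a b hab
  have h1 := (hx' a b).symm.trans (hab ▸ (hx' b b))
  have h2 := (hx' b a).symm.trans (hab ▸ (hx' a a))
  omega

/-- One level of wreathing with the cyclic group of order three. -/
def step (S : Subgroup PV) : Subgroup PV where
  carrier := {x | ∃ (k : ZMod 3) (g : ZMod 3 → PV), (∀ i, g i ∈ S) ∧ x = rot k * node g}
  one_mem' := ⟨0, 1, fun _ => S.one_mem, by rw [rot_zero, node_one, one_mul]⟩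
  mul_mem' := by
    rintro _ _ ⟨k, g, hg, rfl⟩ ⟨l, h, hh, rfl⟩
    exact ⟨k + l, _, fun i => S.mul_mem (hg _) (hh _), rn_mul k l g h⟩
  inv_mem' := by
    rintro _ ⟨k, g, hg, rfl⟩
    exact ⟨-k, _, fun i => S.inv_mem (hg _), rn_inv k g⟩

theorem step_mono {S T : Subgroup PV} (h : S ≤ T) : step S ≤ step T := by
  rintro _ ⟨k, g, hg, rfl⟩
  exact ⟨k, g, fun i => h (hg i), rfl⟩

theorem GS_le_step : GS ≤ step GS := by
  intro x hx
  obtain ⟨u, rfl⟩ := exists_word hx
  exact ⟨ac u, _, fun i => ev_mem_GS _, ev_eq u⟩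

theorem tor_step {S : Subgroup PV} (hS : ∀ x ∈ S, Tor x) : ∀ x ∈ step S, Tor x := by
  rintro _ ⟨k, g, hg, rfl⟩
  apply tor_of_cube
  rw [rn_cube]
  exact tor_node fun i => hS _ (S.mul_mem (S.mul_mem (hg _) (hg _)) (hg _))

/-- Iterated wreath products over the Gupta-Sidki group. -/
def lev : ℕ → Subgroup PV
  | 0 => GS
  | n + 1 => step (lev n)

theorem lev_mono : Monotone lev := by
  refine monotone_nat_of_le_succ fun n => ?_
  induction n with
  | zero => exact GS_le_step
  | succ n ih => exact step_mono ih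

/-- The union of the iterated wreath products. -/
def WW : Subgroup PV := ⨆ n, lev n

theorem mem_WW {x : PV} : x ∈ WW ↔ ∃ n, x ∈ lev n :=
  Subgroup.mem_iSup_of_directed lev_mono.directed_le

theorem tor_of_mem_WW {x : PV} (hx : x ∈ WW) : Tor x := by
  obtain ⟨n, hn⟩ := mem_WW.mp hx
  have : ∀ n, ∀ y ∈ lev n, Tor y := by
    intro n
    induction n with
    | zero => exact fun y hy => tor_of_mem_GS hy
    | succ n ih => exact tor_step ih
  exact this n x hn

theorem WW_isPGroup : IsPGroup 3 WW := by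
  intro x
  obtain ⟨m, hm⟩ := tor_of_mem_WW x.2
  exact ⟨m, Subtype.ext hm⟩

theorem GS_le_WW : GS ≤ WW := le_iSup lev 0

theorem WW_eq_step : step WW = WW := by
  apply le_antisymm
  · rintro _ ⟨k, g, hg, rfl⟩
    choose n hn using fun i => mem_WW.mp (hg i)
    refine mem_WW.mpr ⟨(∑ i, n i) + 1, k, g, fun i => ?_, rfl⟩
    exact lev_mono (Finset.single_le_sum (f := n) (fun _ _ => Nat.zero_le _)
      (Finset.mem_univ i)) (hn i)
  · intro x hx
    obtain ⟨n, hn⟩ := mem_WW.mp hx
    exact step_mono (le_iSup lev n) (lev_mono (Nat.le_succ n) hn)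

theorem WW_decomp {x : PV} (hx : x ∈ WW) :
    ∃ (k : ZMod 3) (g : ZMod 3 → PV), (∀ i, g i ∈ WW) ∧ x = rot k * node g := by
  rw [← WW_eq_step] at hx; exact hx

theorem node_mem_WW {g : ZMod 3 → PV} (hg : ∀ i, g i ∈ WW) : node g ∈ WW := by
  rw [← WW_eq_step]
  exact ⟨0, g, hg, by rw [rot_zero, one_mul]⟩

/-- The `i`-th sections of the elements of `M` that fix the first level. -/
def secAt (M : Subgroup WW) (i : ZMod 3) : Subgroup WW where
  carrier := {y | ∃ x ∈ M, ∃ g : ZMod 3 → PV, (x : PV) = node g ∧ g i = y}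
  one_mem' := ⟨1, M.one_mem, 1, node_one.symm, rfl⟩
  mul_mem' := by
    rintro y y' ⟨x, hx, g, hg, hy⟩ ⟨x', hx', g', hg', hy'⟩
    refine ⟨x * x', M.mul_mem hx hx', g * g', ?_, ?_⟩
    · rw [node_mul, ← hg, ← hg']; rfl
    · rw [Pi.mul_apply, hy, hy']; rfl
  inv_mem' := by
    rintro y ⟨x, hx, g, hg, hy⟩
    refine ⟨x⁻¹, M.inv_mem hx, g⁻¹, ?_, ?_⟩
    · rw [← node_inv, ← hg]; rfl
    · rw [Pi.inv_apply, hy]; rfl

theorem sec_secAt (M : Subgroup WW) (i : ZMod 3) : Sec (secAt M i) M := by
  refine ⟨{ carrier := {z | ∃ g : ZMod 3 → PV, ((z.1 : WW) : PV) = node g ∧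
                g i = ((z.2 : WW) : PV)}
            one_mem' := ⟨1, node_one.symm, rfl⟩
            mul_mem' := ?_
            inv_mem' := ?_ }, ?_, ?_⟩
  · rintro z z' ⟨g, hg, hy⟩ ⟨g', hg', hy'⟩
    refine ⟨g * g', ?_, ?_⟩
    · rw [node_mul, ← hg, ← hg']; rfl
    · rw [Pi.mul_apply, hy, hy']; rfl
  · rintro z ⟨g, hg, hy⟩
    refine ⟨g⁻¹, ?_, ?_⟩
    · rw [← node_inv, ← hg]; rfl
    · rw [Pi.inv_apply, hy]; rfl
  · rintro ⟨y, x, hx, g, hg, hy⟩
    exact ⟨⟨x, hx⟩, g, hg, hy⟩
  · rintro w ⟨g, hg, hy⟩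
    have h1 : g = 1 := node_injective (by rw [node_one, ← hg]; rfl)
    subst h1
    exact Subtype.ext (Subtype.ext hy.symm)

theorem single_mem (i : ZMod 3) (y : WW) : node (Pi.mulSingle i (y : PV)) ∈ WW := by
  refine node_mem_WW fun j => ?_
  by_cases h : j = i
  · subst h; simp
  · simp [Pi.mulSingle_eq_of_ne h]

theorem secAt_normal (M : Subgroup WW) (hM : M.Normal) (i : ZMod 3) : (secAt M i).Normal := by
  constructor
  rintro y ⟨x, hx, g, hg, hy⟩ c
  refine ⟨_, hM.conj_mem x hx ⟨_, single_mem i c⟩,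
    Pi.mulSingle i (c : PV) * g * (Pi.mulSingle i (c : PV))⁻¹, ?_, ?_⟩
  · rw [node_mul, node_mul, ← node_inv, ← hg]; rfl
  · simp [hy]

theorem secAt_eq_top (M : Subgroup WW) (hM : M.Normal) (x : WW) (hx : x ∈ M) (k : ZMod 3)
    (hk : k ≠ 0) (g : ZMod 3 → PV) (hg : (x : PV) = rot k * node g) : secAt M 0 = ⊤ := by
  rw [eq_top_iff]
  intro c _
  let s : WW := ⟨_, single_mem 0 c⟩
  have h1 : s * x * s⁻¹ * x⁻¹ ∈ M := M.mul_mem (hM.conj_mem x hx s) (M.inv_mem hx)
  refine ⟨_, h1, fun j => Pi.mulSingle (M := fun _ => PV) 0 (c : PV) j * g (j - k) *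
    (Pi.mulSingle (M := fun _ => PV) 0 (c : PV) (j - k))⁻¹ * (g (j - k))⁻¹, ?_, ?_⟩
  · show node _ * (x : PV) * (node _)⁻¹ * (x : PV)⁻¹ = _
    rw [hg, rn_inv, node_inv]
    ext1 v; rcases v with _ | ⟨i, v⟩
    · simp
    · simp [sub_eq_add_neg]
  · have : (0 : ZMod 3) - k ≠ 0 := by simpa using hk
    simp only [Pi.mulSingle_eq_same, Pi.mulSingle_eq_of_ne this, inv_one, mul_one,
      mul_inv_cancel_right]

theorem sec_of_moves (v : Vx) : ∀ M : Subgroup WW, M.Normal →
    (∃ x ∈ M, (x : PV) v ≠ v) → Sec WW M := by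
  induction v with
  | nil =>
    rintro M - ⟨x, -, hx⟩
    obtain ⟨k, g, -, hg⟩ := WW_decomp x.2
    rw [hg] at hx
    simp at hx
  | cons i v ih =>
    rintro M hM ⟨x, hx, hv⟩
    obtain ⟨k, g, hgW, hg⟩ := WW_decomp x.2
    by_cases hk : k = 0
    · subst hk
      rw [rot_zero, one_mul] at hg
      refine (ih (secAt M i) (secAt_normal M hM i) ⟨⟨g i, hgW i⟩, ⟨x, hx, g, hg, rfl⟩, ?_⟩).trans
        (sec_secAt M i)
      rw [hg] at hv
      simpa using hv
    · have h1 := sec_secAt M 0
      rw [secAt_eq_top M hM x hx k hk g hg] at h1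
      exact (Sec.of_surjective (Subgroup.topEquiv (G := WW)).toMonoidHom
        (Subgroup.topEquiv (G := WW)).surjective).trans h1

/-- Every nontrivial normal subgroup of `WW` has `WW` as a section. -/
theorem WW_sec (M : Subgroup WW) (hM : M.Normal) (hne : M ≠ ⊥) : Sec WW M := by
  obtain ⟨x, hx, hx1⟩ : ∃ x ∈ M, x ≠ 1 := by
    by_contra hcon
    apply hne
    rw [eq_bot_iff]
    intro z hz
    by_contra hz1
    exact hcon ⟨z, hz, hz1⟩
  obtain ⟨v, hv⟩ : ∃ v, (x : PV) v ≠ v := by
    by_contra hcon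
    apply hx1
    refine Subtype.ext (Equiv.ext fun v => ?_)
    by_contra h
    exact hcon ⟨v, h⟩
  exact sec_of_moves v M hM ⟨x, hx, hv⟩

theorem WW_not_binFin :
    ¬ ∀ x y : WW, ((Subgroup.closure ({x, y} : Set WW)) : Set WW).Finite := by
  intro h
  have ha : rot 1 ∈ WW := GS_le_WW (Subgroup.subset_closure (by simp))
  have ht : tt 1 ∈ WW := GS_le_WW (Subgroup.subset_closure (by simp))
  have h1 := (h ⟨_, ha⟩ ⟨_, ht⟩).image WW.subtype
  apply GS_infinite
  rw [← Subgroup.coe_map, MonoidHom.map_closure, Set.image_pair] at h1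
  exact h1

theorem WW_not_two : ¬ IsPGroup 2 WW := by
  intro h
  have ha : rot 1 ∈ WW := GS_le_WW (Subgroup.subset_closure (by simp))
  obtain ⟨n, hn⟩ := h ⟨_, ha⟩
  have h1 : rot 1 ^ (2 ^ n) = 1 := congrArg Subtype.val hn
  obtain ⟨m, hm⟩ := tor_rot 1
  have h2 : rot 1 ^ (Nat.gcd (2 ^ n) (3 ^ m)) = 1 := pow_gcd_eq_one.mpr ⟨h1, hm⟩
  have h3 : Nat.gcd (2 ^ n) (3 ^ m) = 1 := Nat.Coprime.pow _ _ (by norm_num)
  rw [h3, pow_one] at h2
  have := congrArg (fun x : PV => x [0]) h2
  simp at this

end Pool.Agent.Lib.MP_068a9c_al
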