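import Mathlib
import Pool.Agent.Lib.MP_068a9c_al.Section
import Pool.Agent.Lib.MP_068a9c_al.Magnus
import Pool.Agent.Lib.MP_068a9c_al.Tree

set_option autoImplicit false

namespace Pool.Agent.Lib.MP_068a9c_al

/-- The counterexample: the Magnus-type extension of the union of the iterated wreath
products over the Gupta-Sidki 3-group. -/
abbrev GG : Type := Mag WW

theorem GG_isPGroup : IsPGroup 3 GG := Mag.isPGroup WW_isPGroup

theorem GG_torsion : IsMulTorsion GG := by
  intro g
  obtain ⟨n, hn⟩ := GG_isPGroup g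
  exact isOfFinOrder_iff_pow_eq_one.mpr ⟨3 ^ n, by positivity, hn⟩

theorem GG_sec : Sec WW GG := Sec.of_surjective Mag.proj Mag.proj_surjective

theorem not_sec_iso (K L : Type) [Group K] [Group L] (e : K ≃* L) (h : ¬ Sec WW K) :
    ¬ Sec WW L := fun h' => h (h'.of_mulEquiv e)

theorem not_sec_two (K : Type) [Group K] (h : IsPGroup 2 K) : ¬ Sec WW K :=
  fun h' => WW_not_two (h'.isPGroup h)

theorem not_sec_binFin (K : Type) [Group K]
    (h : ∀ x y : K, ((Subgroup.closure ({x, y} : Set K)) : Set K).Finite) : ¬ Sec WW K :=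
  fun h' => WW_not_binFin (h'.binFin h)

theorem not_sec_ext (K : Type) [Group K] (N : Subgroup K) [N.Normal] (h1 : ¬ Sec WW N)
    (h2 : ¬ Sec WW (K ⧸ N)) : ¬ Sec WW K :=
  fun h' => (Sec.ext_cases WW_sec N h').elim h1 h2

end Pool.Agent.Lib.MP_068a9c_al
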