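import Pool.Agent.Lib.MP_068a9c_al.GSp

set_option autoImplicit false

namespace Pool.Agent.Lib.MP_068a9c_al.Gen

universe u

section
variable {W Q : Type u} [Group W] [Group Q] {n : ℕ}

/-- Functoriality of the extension. -/
noncomputable def Mag.map (φ : W →* Q) : Mag n W →* Mag n Q where
  toFun x := ⟨Finsupp.mapDomain (Prod.map φ φ) x.f, φ x.w, fun h => by
    have h1 := x.bd (h ∘ φ)
    rw [Function.comp_apply, Function.comp_apply, map_one] at h1
    rw [← h1, pairing, pairing, Finsupp.linearCombination_mapDomain]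
    rfl⟩
  map_one' := by ext1 <;> simp
  map_mul' x y := by
    ext1
    · simp only [Mag.mul_f, Finsupp.mapDomain_add, chainAct, ← Finsupp.mapDomain_comp]
      congr 2
      funext e
      simp [edgeAct]
    · simp

theorem Mag.finite (hn : n ≠ 0) [Finite Q] : Finite (Mag n Q) := by
  have : NeZero n := ⟨hn⟩
  have : Finite ((Q × Q) →₀ ZMod n) := Finite.of_equiv _ Finsupp.equivFunOnFinite.symm
  exact Finite.of_injective (fun x : Mag n Q => (x.f, x.w)) fun x y h =>
    Mag.ext (congrArg Prod.fst h) (congrArg Prod.snd h)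

theorem exists_injOn [Group.ResiduallyFinite W] {A : Set W} (hA : A.Finite) :
    ∃ (N : Subgroup W) (_ : N.Normal), N.FiniteIndex ∧ Set.InjOn (QuotientGroup.mk' N) A := by
  have := hA.to_subtype
  choose H hH using fun z : {z : A × A // z.1 ≠ z.2} =>
    Group.exists_finiteIndexNormalSubgroup_notMem ((z.1.1 : W)⁻¹ * z.1.2)
      fun h => z.2 (Subtype.ext (eq_of_inv_mul_eq_one h))
  refine ⟨⨅ z, (H z).toSubgroup, Subgroup.normal_iInf_normal fun z => (H z).isNormal',
    Subgroup.finiteIndex_iInf fun z => (H z).isFiniteIndex', fun a ha b hb hab => ?_⟩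
  by_contra hne
  exact hH ⟨(⟨a, ha⟩, ⟨b, hb⟩), fun h => hne (congrArg Subtype.val h)⟩
    (Subgroup.mem_iInf.1 (QuotientGroup.eq.1 hab) _)

theorem Mag.residuallyFinite (hn : n ≠ 0) [Group.ResiduallyFinite W] :
    Group.ResiduallyFinite (Mag n W) := by
  refine Group.residuallyFinite_of_forall_exists_finite_monoidHom.{u} fun x hx => ?_
  let A : Set W := {1, x.w} ∪ (Prod.fst '' (x.f.support : Set (W × W)) ∪
    Prod.snd '' (x.f.support : Set (W × W)))
  obtain ⟨N, _, _, hN⟩ := exists_injOn (A := A) (Set.toFinite _)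
  refine ⟨Mag n (W ⧸ N), inferInstance, Mag.finite hn, Mag.map (QuotientGroup.mk' N),
    fun h => hx (Mag.ext ?_ ?_)⟩
  · ext e
    by_contra he
    have h1 := Finsupp.mapDomain_apply' (x.f.support : Set (W × W))
      (f := Prod.map (QuotientGroup.mk' N) (QuotientGroup.mk' N)) x.f subset_rfl
      (fun a ha b hb hab => Prod.ext
        (hN (Or.inr (Or.inl ⟨a, ha, rfl⟩)) (Or.inr (Or.inl ⟨b, hb, rfl⟩)) (congrArg Prod.fst hab))
        (hN (Or.inr (Or.inr ⟨a, ha, rfl⟩)) (Or.inr (Or.inr ⟨b, hb, rfl⟩)) (congrArg Prod.snd hab)))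
      (Finsupp.mem_support_iff.2 he)
    have h2 : Finsupp.mapDomain (Prod.map (QuotientGroup.mk' N) (QuotientGroup.mk' N)) x.f = 0 :=
      congrArg Mag.f h
    rw [h2] at h1
    exact he h1.symm
  · exact hN (Or.inl (Or.inr rfl)) (Or.inl (Or.inl rfl)) (congrArg Mag.w h)

theorem exists_cover' (hn : n ≠ 0) [Group.ResiduallyFinite W] (hK : IsPGroup n W)
    {ι : Type*} (s : ι → W) : ∃ (G : Type u) (_ : Group G) (π : G →* W) (t : ι → G),
      Cover n π ∧ Subgroup.closure (Set.range t) = ⊤ ∧ (∀ i, π (t i) = s i) ∧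
        Group.ResiduallyFinite G := by
  choose t ht using fun i => Mag.proj_surjective (n := n) (s i)
  have := Mag.residuallyFinite (W := W) hn
  refine ⟨Subgroup.closure (Set.range t), inferInstance, _,
    fun i => ⟨t i, Subgroup.subset_closure ⟨i, rfl⟩⟩, (Mag.cover hn hK).subgroup _, ?_, ht,
    inferInstance⟩
  rw [← Subgroup.closure_closure_coe_preimage]
  congr 1
  ext x
  simp [Subtype.ext_iff]

end

variable {p : ℕ}

theorem length_tFun (e : ZMod p) (v : Vx p) : (tFun e v).length = v.length := by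
  induction v with
  | nil => rfl
  | cons i v ih =>
    simp only [tFun, List.length_cons]
    split_ifs
    · rw [ih]
    · cases v <;> rfl

theorem length_GS {x : PV p} (hx : x ∈ GS p) (v : Vx p) : (x v).length = v.length := by
  induction hx using Subgroup.closure_induction generalizing v with
  | mem z hz =>
    rcases hz with rfl | rfl
    · cases v <;> rfl
    · exact length_tFun 1 v
  | one => rfl
  | mul z z' _ _ h1 h2 => rw [Equiv.Perm.mul_apply, h1, h2]
  | inv z _ h1 => rw [← h1 (z⁻¹ v), ← Equiv.Perm.mul_apply, mul_inv_cancel]; rfl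

theorem GS_residuallyFinite [Fact p.Prime] : Group.ResiduallyFinite (GS p) := by
  refine Group.residuallyFinite_iff_forall_finiteIndex.2 fun g hg =>
    Subtype.ext (Equiv.ext fun v => ?_)
  have h1 : (MulAction.orbit (GS p) v).Finite := (List.finite_length_eq (ZMod p) v.length).subset
    (by rintro _ ⟨x, rfl⟩; exact length_GS x.2 v)
  have : (MulAction.stabilizer (GS p) v).FiniteIndex := ⟨by
    rw [MulAction.index_stabilizer]
    exact ((Set.ncard_pos h1).2 ⟨v, MulAction.mem_orbit_self v⟩).ne'⟩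
  exact hg (MulAction.stabilizer (GS p) v)

end Pool.Agent.Lib.MP_068a9c_al.Gen
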